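import Pool.Agent.H85.KW.Sph

/-!
# The weighted comparison in terms of the length of the Killing field
-/

open Set Metric Filter Topology MeasureTheory
open scoped ContDiff RealInnerProductSpace ENNReal

noncomputable section

set_option maxSynthPendingDepth 3

namespace Pool.Agent.H85.KW

open Pool.Agent.W9h56.BE Pool.Agent.W5h72.BR

variable {E : Type*} [NormedAddCommGroup E] [InnerProductSpace ℝ E]

variable {g g' : E → E →L[ℝ] E →L[ℝ] ℝ} {e L e' L' : E → E → E} {X : E → E}

/-- the length of the vector field `X` -/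
def nX (g : E → E →L[ℝ] E →L[ℝ] ℝ) (X : E → E) (x : E) : ℝ := √(g x (X x) (X x))

lemma nX_nonneg (x : E) : 0 ≤ nX g X x := Real.sqrt_nonneg _

lemma nX_sq (hg : IsMetric g) {x : E} (hx : x ∈ closedBall (0 : E) 1) :
    nX g X x ^ 2 = g x (X x) (X x) := Real.sq_sqrt (hg.nonneg hx _)

lemma continuous_nX (hg : IsMetric g) (hX : Continuous X) : Continuous (nX g X) :=
  ((hg.cont.clm_apply hX).clm_apply hX).sqrt

/-- `g' = a g + b ξ²` on the unit ball with the form `ξ = g (X, ·)` -/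
def Str (g g' : E → E →L[ℝ] E →L[ℝ] ℝ) (X : E → E) (a b : E → ℝ) : Prop :=
  ∀ x ∈ closedBall (0 : E) 1, ∀ v w, g' x v w = a x * g x v w + b x * (g x (X x) v * g x (X x) w)

variable [FiniteDimensional ℝ E] [MeasurableSpace E] [BorelSpace E]

/-- the weighted comparison -/
theorem base (h : Simple g e L) (hg : IsMetric g') (hX : ContDiff ℝ 1 X) (hK : IsKilling g X)
    (hd : ∀ p ∈ sphere (0 : E) 1, ∀ q ∈ sphere (0 : E) 1, gdist g p q ≤ gdist g' p q)
    {W : ℝ → ℝ≥0∞} (hW : Measurable W) {e0 : E} (h0 : ‖e0‖ = 1) {a b : E → ℝ}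
    (hab : Str g g' X a b) :
    ∫⁻ x in ball (0 : E) 1, ENNReal.ofReal (dens (g x)) *
        ∫⁻ z in S0, W (nX g X x * inner ℝ e0 (un z)) ≤
      ∫⁻ x in ball (0 : E) 1, ENNReal.ofReal (dens (g x)) *
        ∫⁻ z in S0, W (nX g X x * inner ℝ e0 (un z)) *
          ENNReal.ofReal √(a x + b x * (nX g X x * inner ℝ e0 (un z)) ^ 2) := by
  have hgm := Simple_isMetric h
  obtain ⟨A, hA⟩ := exists_isFrame hgm
  have h1 := weighted h hg hX hK hd hW
  have key : ∀ x ∈ ball (0 : E) 1, ∀ Φ : ℝ → ℝ≥0∞,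
      ∫⁻ z in S0, Φ (g x (X x) (A x (un z))) =
        ∫⁻ z in S0, Φ (nX g X x * inner ℝ e0 (un z)) := by
    intro x hx Φ
    have hxM := ball_subset_closedBall hx
    obtain ⟨k1, k2⟩ := hA x hxM
    have k3 : ∀ w, g x (X x) (A x w) = inner ℝ ((A x).symm (X x)) w := by
      intro w
      rw [← k1, LinearEquiv.apply_symm_apply]
    have k4 : ‖(A x).symm (X x)‖ = ‖nX g X x • e0‖ := by
      rw [norm_smul, h0, mul_one, Real.norm_eq_abs, abs_of_nonneg (nX_nonneg x), nX,
        ← LinearEquiv.apply_symm_apply (A x) (X x), k1, LinearEquiv.symm_apply_apply,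
        real_inner_self_eq_norm_sq, Real.sqrt_sq (norm_nonneg _)]
    simp only [k3]
    rw [sph_eq k4 Φ]
    refine lintegral_congr fun z => ?_
    rw [inner_smul_left]
    rfl
  have e1 : ∫⁻ x in ball (0 : E) 1, ∫⁻ z in S0, ENNReal.ofReal |(AA g L (x, z)).det| *
        W (fi g L X (x, z)) =
      ∫⁻ x in ball (0 : E) 1, ENNReal.ofReal (dens (g x)) *
        ∫⁻ z in S0, W (nX g X x * inner ℝ e0 (un z)) := by
    refine setLIntegral_congr_fun measurableSet_ball fun x hx => ?_
    have hx1 : ‖x‖ < 1 := by simpa using hx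
    obtain ⟨k1, k2⟩ := hA x (ball_subset_closedBall hx)
    have k3 := fix_x h hx1 (A x) k1 fun u => W (g x (X x) u)
    simp only [fi]
    rw [k3, k2, key x hx W]
  have e2 : ∫⁻ x in ball (0 : E) 1, ∫⁻ z in S0, ENNReal.ofReal |(AA g L (x, z)).det| *
        (W (fi g L X (x, z)) * ENNReal.ofReal (FF g g' L id (x, z))) =
      ∫⁻ x in ball (0 : E) 1, ENNReal.ofReal (dens (g x)) *
        ∫⁻ z in S0, W (nX g X x * inner ℝ e0 (un z)) *
          ENNReal.ofReal √(a x + b x * (nX g X x * inner ℝ e0 (un z)) ^ 2) := by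
    refine setLIntegral_congr_fun measurableSet_ball fun x hx => ?_
    have hx1 : ‖x‖ < 1 := by simpa using hx
    have hxM := ball_subset_closedBall hx
    obtain ⟨k1, k2⟩ := hA x hxM
    have k3 := fix_x h hx1 (A x) k1 fun u => W (g x (X x) u) * ENNReal.ofReal √(g' x u u)
    simp only [fi, FF, pull_id]
    rw [k3, k2, ← key x hx (fun s => W s * ENNReal.ofReal √(a x + b x * s ^ 2))]
    congr 1
    refine setLIntegral_congr_fun measurableSet_S0 fun z hz => ?_
    have hz0 : z ≠ 0 := fun h => hz.2 h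
    have k4 : ‖un z‖ = 1 := by
      rw [un, norm_smul, norm_inv, norm_norm, inv_mul_cancel₀ (norm_ne_zero_iff.2 hz0)]
    rw [hab x hxM, k1, real_inner_self_eq_norm_sq, k4]
    congr 3
    ring
  rw [e1, e2] at h1
  exact h1

end Pool.Agent.H85.KW
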