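import Pool.Agent.H85.BE.Final

/-!
# Comparison of two functions along the geodesics from a boundary point
-/

open Set Metric Filter Topology MeasureTheory
open scoped ContDiff RealInnerProductSpace ENNReal

noncomputable section

set_option maxSynthPendingDepth 3

namespace Pool.Agent.H85.KW

open Pool.Agent.W9h56.BE Pool.Agent.W5h72.BR

variable {E : Type*} [NormedAddCommGroup E] [InnerProductSpace ℝ E] [FiniteDimensional ℝ E]
  [MeasurableSpace E] [BorelSpace E]

variable {g g' : E → E →L[ℝ] E →L[ℝ] ℝ} {e L e' L' : E → E → E}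

/-- the integral along a line through the image of the ball -/
lemma line_eq (h : Simple g e L) {z : E} (hz : z ≠ 0) {f0 : E → ℝ≥0∞} {F : E → ℝ≥0∞}
    (hf : ∀ x ∈ ball (0 : E) 1, indicator (Om g L z) f0 (Th g L (x, z)) = F x) {q : E}
    (hq : q ∈ sphere (0 : E) 1) (hpq : proj z ≠ q) :
    ∫⁻ s : ℝ, indicator (Om g L z) f0 (s • proj z + tau g L (proj z) q) =
      ∫⁻ s in Ioo (0 : ℝ) (rho g L (proj z) q),
        F (e (proj z) ((s / rho g L (proj z) q) • L (proj z) q)) := by
  have hp := proj_mem hz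
  have hpM := mem_of_sphere hp
  have hr := h.rho_pos hpM (mem_of_sphere hq) hpq
  set r := rho g L (proj z) q with hrd
  have h1 : ∀ s : ℝ, s ∉ Ioo (0 : ℝ) r →
      indicator (Om g L z) f0 (s • proj z + tau g L (proj z) q) = 0 := by
    intro s hs
    refine indicator_of_notMem (fun hs' => hs ?_) _
    obtain ⟨q', hq', hpq', s', hs', heq⟩ := (mem_Om h hz).1 hs'
    obtain ⟨h2, h3⟩ := rep_unique h hp hq hq' hpq hpq' heq
    rw [h2, hrd, h3]
    exact hs'
  rw [← setLIntegral_eq_of_support_subset (s := Ioo (0 : ℝ) r) (fun s hs => by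
    by_contra hcon
    exact hs (h1 s hcon))]
  refine setLIntegral_congr_fun measurableSet_Ioo fun s hs => ?_
  have ht : s / r ∈ Ioo (0 : ℝ) 1 := ⟨div_pos hs.1 hr, (div_lt_one hr).2 hs.2⟩
  rw [← hf _ (by
    have := h.pt_interior hpM (mem_of_sphere hq) hpq ht
    simpa using this), Th_seg h hz hq hpq ht, ← hrd, div_mul_cancel₀ _ hr.ne']

/-- comparison for a fixed boundary point -/
lemma fix_z2 (h : Simple g e L) {z : E} (hz : z ≠ 0) {F1 F2 : E → ℝ≥0∞}
    (hF1 : Measurable fun x : ball (0 : E) 1 => F1 x)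
    (hF2 : Measurable fun x : ball (0 : E) 1 => F2 x)
    (hlen : ∀ q ∈ sphere (0 : E) 1, proj z ≠ q →
      ∫⁻ s in Ioo (0 : ℝ) (rho g L (proj z) q),
        F1 (e (proj z) ((s / rho g L (proj z) q) • L (proj z) q)) ≤
      ∫⁻ s in Ioo (0 : ℝ) (rho g L (proj z) q),
        F2 (e (proj z) ((s / rho g L (proj z) q) • L (proj z) q))) :
    ∫⁻ x in ball (0 : E) 1, ENNReal.ofReal |(AA g L (x, z)).det| * F1 x ≤
      ∫⁻ x in ball (0 : E) 1, ENNReal.ofReal |(AA g L (x, z)).det| * F2 x := by
  have hd : ∀ x ∈ ball (0 : E) 1, HasFDerivWithinAt (fun x => Th g L (x, z)) (AA g L (x, z))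
      (ball (0 : E) 1) x := fun x hx =>
    (hasFDerivAt_Th h (by simpa using hx) hz).hasFDerivWithinAt
  have hinj := Th_inj h hz
  have hemb := measurableEmbedding_of_fderivWithin measurableSet_ball hd hinj
  have hOm : MeasurableSet (Om g L z) := by
    have := hemb.measurableSet_range
    rwa [Set.range_domRestrict] at this
  have key : ∀ {F : E → ℝ≥0∞}, (Measurable fun x : ball (0 : E) 1 => F x) →
      ∃ f0 : E → ℝ≥0∞, Measurable f0 ∧
        (∀ x ∈ ball (0 : E) 1, indicator (Om g L z) f0 (Th g L (x, z)) = F x) ∧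
        ∫⁻ x in ball (0 : E) 1, ENNReal.ofReal |(AA g L (x, z)).det| * F x =
          ∫⁻ y, indicator (Om g L z) f0 y := by
    intro F hF
    obtain ⟨f0, hf0, hf0c⟩ := hemb.exists_measurable_extend hF fun _ => inferInstance
    have hfF : ∀ x ∈ ball (0 : E) 1, indicator (Om g L z) f0 (Th g L (x, z)) = F x := by
      intro x hx
      rw [indicator_of_mem (show Th g L (x, z) ∈ Om g L z from mem_image_of_mem _ hx)]
      exact congrFun hf0c ⟨x, hx⟩
    refine ⟨f0, hf0, hfF, ?_⟩
    have h3 := lintegral_image_eq_lintegral_abs_det_fderiv_mul volume measurableSet_ball hd hinj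
      (indicator (Om g L z) f0)
    have h4 : ∫⁻ y, indicator (Om g L z) f0 y = ∫⁻ y in Om g L z, indicator (Om g L z) f0 y := by
      rw [← lintegral_indicator hOm]
      congr 1
      ext y
      rw [indicator_indicator, inter_self]
    rw [h4]
    have h5 : ∫⁻ x in ball (0 : E) 1, ENNReal.ofReal |(AA g L (x, z)).det| * F x =
        ∫⁻ x in ball (0 : E) 1, ENNReal.ofReal |(AA g L (x, z)).det| *
          indicator (Om g L z) f0 (Th g L (x, z)) :=
      setLIntegral_congr_fun measurableSet_ball fun x hx => by rw [hfF x hx]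
    rw [h5, ← h3]
    rfl
  obtain ⟨f1, hf1, hf1F, h1⟩ := key hF1
  obtain ⟨f2, hf2, hf2F, h2⟩ := key hF2
  rw [h1, h2]
  refine lintegral_le_of_lines (hf1.indicator hOm) (hf2.indicator hOm)
    (norm_of_sphere (proj_mem hz)) fun y => ?_
  by_cases hex : ∃ s0 : ℝ, y + s0 • proj z ∈ Om g L z
  swap
  · have h0 : ∀ s : ℝ, indicator (Om g L z) f1 (y + s • proj z) = 0 := fun s =>
      indicator_of_notMem (fun hs => hex ⟨s, hs⟩) _
    simp [h0]
  obtain ⟨s0, hs0⟩ := hex
  obtain ⟨q, hq, hpq, s1, hs1, hy⟩ := (mem_Om h hz).1 hs0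
  set c := s1 - s0 with hc
  have hy' : ∀ s : ℝ, y + s • proj z = (s + c) • proj z + tau g L (proj z) q := by
    intro s
    have h1 : y = s1 • proj z + tau g L (proj z) q - s0 • proj z := by rw [← hy]; abel
    rw [h1, hc]
    simp only [add_smul, sub_smul]
    abel
  simp only [hy']
  rw [lintegral_add_right_eq_self (fun s : ℝ => indicator (Om g L z) f1
    (s • proj z + tau g L (proj z) q)) c,
    lintegral_add_right_eq_self (fun s : ℝ => indicator (Om g L z) f2
    (s • proj z + tau g L (proj z) q)) c, line_eq h hz hf1F hq hpq, line_eq h hz hf2F hq hpq]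
  exact hlen q hq hpq

end Pool.Agent.H85.KW
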