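import Pool.Agent.H85.KW.Two

/-!
# The algebra of the class `g' = a g + b ξ²`
-/

open Set Metric Filter Topology MeasureTheory
open scoped ContDiff RealInnerProductSpace ENNReal

noncomputable section

set_option maxSynthPendingDepth 3

namespace Pool.Agent.H85.KW

open Pool.Agent.W9h56.BE Pool.Agent.W5h72.BR

variable {E : Type*} [NormedAddCommGroup E] [InnerProductSpace ℝ E] [FiniteDimensional ℝ E]

variable {g g' : E → E →L[ℝ] E →L[ℝ] ℝ} {e L e' L' : E → E → E} {X : E → E}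

/-- the determinant -/
lemma det_str {B C : E →L[ℝ] E →L[ℝ] ℝ} (hs : ∀ v w, B v w = B w v) {Y : E} {a b : ℝ}
    (ha : a ≠ 0) (hC : ∀ v w, C v w = a * B v w + b * (B Y v * B Y w))
    (hn : 0 < Module.finrank ℝ E) :
    (gram C).det = (gram B).det * (a ^ (Module.finrank ℝ E - 1) * (a + b * B Y Y)) := by
  set bs := stdOrthonormalBasis ℝ E with hbs
  set c : Fin (Module.finrank ℝ E) → ℝ := fun i => inner ℝ (bs i) Y with hc
  set ξ : Fin (Module.finrank ℝ E) → ℝ := fun i => B Y (bs i) with hξ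
  have hY : ∑ i, c i • bs i = Y := bs.sum_repr' Y
  have h1 : (gram B).mulVec c = ξ := by
    funext i
    simp only [Matrix.mulVec, dotProduct, gram, Matrix.of_apply, hξ]
    rw [hs Y (bs i)]
    conv_rhs => rw [← hY]
    rw [map_sum]
    refine Finset.sum_congr rfl fun j _ => ?_
    rw [map_smul, smul_eq_mul, mul_comm]
  have h2 : dotProduct ξ c = B Y Y := by
    have h0 : B Y Y = B Y (∑ i, c i • bs i) := by rw [hY]
    rw [h0, map_sum]
    simp only [dotProduct, hξ]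
    refine Finset.sum_congr rfl fun j _ => ?_
    rw [map_smul, smul_eq_mul, mul_comm]
  have h3 : gram C = gram B * (a • (1 + (b / a) • Matrix.vecMulVec c ξ)) := by
    rw [Matrix.mul_smul, Matrix.mul_add, Matrix.mul_one, Matrix.mul_smul, Matrix.mul_vecMulVec, h1]
    ext i j
    simp only [gram, Matrix.of_apply, Matrix.smul_apply, Matrix.add_apply, Matrix.vecMulVec_apply,
      smul_eq_mul, hC, hξ, ← hbs]
    field_simp
  have h4 : (1 + (b / a) • Matrix.vecMulVec c ξ :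
      Matrix (Fin (Module.finrank ℝ E)) (Fin (Module.finrank ℝ E)) ℝ).det = 1 + b / a * B Y Y := by
    have h5 : (b / a) • Matrix.vecMulVec c ξ =
        Matrix.replicateCol Unit ((b / a) • c) * Matrix.replicateRow Unit ξ := by
      rw [← Matrix.vecMulVec_eq, Matrix.smul_vecMulVec]
    rw [h5, Matrix.det_one_add_replicateCol_mul_replicateRow, dotProduct_smul, h2, smul_eq_mul]
  rw [h3, Matrix.det_mul, Matrix.det_smul, h4, Fintype.card_fin]
  congr 1
  obtain ⟨m, hm⟩ : ∃ m, Module.finrank ℝ E = m + 1 := ⟨Module.finrank ℝ E - 1, by omega⟩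
  rw [hm, Nat.add_sub_cancel, pow_succ]
  field_simp

omit [FiniteDimensional ℝ E] in
lemma exists_lower [FiniteDimensional ℝ E] (hg : IsMetric g) (hn : 0 < Module.finrank ℝ E) :
    ∃ m > 0, ∀ x ∈ closedBall (0 : E) 1, ∀ v, m * ‖v‖ ^ 2 ≤ g x v v := by
  have hnt : Nontrivial E := Module.finrank_pos_iff.1 hn
  have hK : IsCompact (closedBall (0 : E) 1 ×ˢ sphere (0 : E) 1) :=
    (isCompact_closedBall 0 1).prod (isCompact_sphere 0 1)
  have hne : (closedBall (0 : E) 1 ×ˢ sphere (0 : E) 1).Nonempty :=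
    ⟨(0, (NormedSpace.sphere_nonempty.2 zero_le_one).some), by simp,
      (NormedSpace.sphere_nonempty.2 zero_le_one).some_mem⟩
  have hc : Continuous fun w : E × E => g w.1 w.2 w.2 :=
    ((hg.cont.comp continuous_fst).clm_apply continuous_snd).clm_apply continuous_snd
  obtain ⟨w, hw, hmin⟩ := hK.exists_isMinOn hne hc.continuousOn
  have hw2 : w.2 ≠ 0 := by
    intro h0
    have := hw.2
    rw [h0] at this
    simp at this
  refine ⟨g w.1 w.2 w.2, hg.pos w.1 hw.1 w.2 hw2, fun x hx v => ?_⟩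
  by_cases hv : v = 0
  · rw [hv]; simp
  · have hvn : ‖v‖ ≠ 0 := norm_ne_zero_iff.2 hv
    have h1 : (x, ‖v‖⁻¹ • v) ∈ closedBall (0 : E) 1 ×ˢ sphere (0 : E) 1 := by
      refine ⟨hx, ?_⟩
      rw [mem_sphere, dist_zero_right, norm_smul, norm_inv, norm_norm, inv_mul_cancel₀ hvn]
    have h2 : g w.1 w.2 w.2 ≤ g x (‖v‖⁻¹ • v) (‖v‖⁻¹ • v) := hmin h1
    simp only [map_smul, smul_apply, smul_eq_mul] at h2
    have h3 : g x v v = ‖v‖ ^ 2 * (‖v‖⁻¹ * (‖v‖⁻¹ * g x v v)) := by field_simp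
    rw [h3, mul_comm]
    exact mul_le_mul_of_nonneg_left h2 (sq_nonneg _)

lemma exists_upper (hg : IsMetric g) :
    ∃ C > 0, ∀ x ∈ closedBall (0 : E) 1, ∀ v, g x v v ≤ C * ‖v‖ ^ 2 := by
  obtain ⟨C, hC⟩ := (isCompact_closedBall (0 : E) 1).bddAbove_image hg.cont.norm.continuousOn
  refine ⟨max C 1, lt_max_of_lt_right one_pos, fun x hx v => ?_⟩
  have h1 : ‖g x‖ ≤ C := hC (mem_image_of_mem _ hx)
  have h2 := (g x).le_opNorm₂ v v
  calc g x v v ≤ ‖g x v v‖ := le_abs_self _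
    _ ≤ ‖g x‖ * ‖v‖ * ‖v‖ := h2
    _ = ‖g x‖ * ‖v‖ ^ 2 := by ring
    _ ≤ max C 1 * ‖v‖ ^ 2 := mul_le_mul_of_nonneg_right (h1.trans (le_max_left _ _)) (sq_nonneg _)

/-- uniform equivalence of two metrics -/
lemma exists_equiv (hg : IsMetric g) (hg' : IsMetric g') (hn : 0 < Module.finrank ℝ E) :
    ∃ c > 0, ∃ C > 0, ∀ x ∈ closedBall (0 : E) 1, ∀ v,
      c * g x v v ≤ g' x v v ∧ g' x v v ≤ C * g x v v := by
  obtain ⟨m, hm, h1⟩ := exists_lower hg hn
  obtain ⟨m', hm', h1'⟩ := exists_lower hg' hn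
  obtain ⟨C, hC, h2⟩ := exists_upper hg
  obtain ⟨C', hC', h2'⟩ := exists_upper hg'
  refine ⟨m' / C, div_pos hm' hC, C' / m, div_pos hC' hm, fun x hx v => ⟨?_, ?_⟩⟩
  · have h3 : m' / C * g x v v ≤ m' / C * (C * ‖v‖ ^ 2) :=
      mul_le_mul_of_nonneg_left (h2 x hx v) (div_pos hm' hC).le
    have h4 : m' / C * (C * ‖v‖ ^ 2) = m' * ‖v‖ ^ 2 := by field_simp
    linarith [h1' x hx v]
  · have h3 : C' / m * (m * ‖v‖ ^ 2) ≤ C' / m * g x v v :=
      mul_le_mul_of_nonneg_left (h1 x hx v) (div_pos hC' hm).le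
    have h4 : C' / m * (m * ‖v‖ ^ 2) = C' * ‖v‖ ^ 2 := by field_simp
    linarith [h2' x hx v]

omit [FiniteDimensional ℝ E] in
/-- a vector in the kernel of a linear form -/
lemma exists_ker {e0 e1 : E} (h0 : ‖e0‖ = 1) (h1 : ‖e1‖ = 1) (h01 : inner ℝ e0 e1 = 0)
    (f : E →L[ℝ] ℝ) : ∃ v, v ≠ 0 ∧ f v = 0 := by
  by_cases hf : f e0 = 0
  · exact ⟨e0, fun h => by rw [h, norm_zero] at h0; norm_num at h0, hf⟩
  · refine ⟨f e1 • e0 - f e0 • e1, fun h => hf ?_, by simp [mul_comm]⟩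
    have h2 : inner ℝ e1 (f e1 • e0 - f e0 • e1) = 0 := by rw [h, inner_zero_right]
    rw [inner_sub_right, inner_smul_right, inner_smul_right, real_inner_comm e0 e1, h01,
      real_inner_self_eq_norm_sq, h1] at h2
    linarith

/-- the structure at one point -/
lemma str_pt (hg : IsMetric g) {e0 e1 : E} (h0 : ‖e0‖ = 1) (h1 : ‖e1‖ = 1)
    (h01 : inner ℝ e0 e1 = 0) {x : E} (hx : x ∈ closedBall (0 : E) 1) {Y : E} {a b c C : ℝ}
    (hab : ∀ v w, g' x v w = a * g x v w + b * (g x Y v * g x Y w)) (hc : 0 < c)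
    (hcC : ∀ v, c * g x v v ≤ g' x v v ∧ g' x v v ≤ C * g x v v) :
    c ≤ a ∧ a ≤ C ∧ 0 < a + b * g x Y Y ∧ a + b * g x Y Y ≤ C ∧
      g' x Y Y = (a + b * g x Y Y) * g x Y Y ∧
      dens (g' x) = dens (g x) * √(a ^ (Module.finrank ℝ E - 1) * (a + b * g x Y Y)) ∧
      (∀ v w, g x v w = a⁻¹ * g' x v w +
        -b / (a * (a + b * g x Y Y) ^ 2) * (g' x Y v * g' x Y w)) := by
  obtain ⟨v, hv, hfv⟩ := exists_ker h0 h1 h01 (g x Y)
  have k1 := hg.pos x hx v hv
  have k2 : g' x v v = a * g x v v := by rw [hab, hfv]; ring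
  obtain ⟨k3, k4⟩ := hcC v
  rw [k2] at k3 k4
  have hca : c ≤ a := le_of_mul_le_mul_right k3 k1
  have haC : a ≤ C := le_of_mul_le_mul_right k4 k1
  have ha0 : 0 < a := hc.trans_le hca
  have hYY : g' x Y Y = (a + b * g x Y Y) * g x Y Y := by rw [hab]; ring
  have hβ : 0 < a + b * g x Y Y ∧ a + b * g x Y Y ≤ C := by
    by_cases hY : Y = 0
    · rw [hY]
      simp only [map_zero, mul_zero, add_zero]
      exact ⟨ha0, haC⟩
    · have k5 := hg.pos x hx Y hY
      obtain ⟨k6, k7⟩ := hcC Y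
      rw [hYY] at k6 k7
      exact ⟨hc.trans_le (le_of_mul_le_mul_right k6 k5), le_of_mul_le_mul_right k7 k5⟩
  have hnn : 0 < Module.finrank ℝ E := by
    have : Nontrivial E := ⟨e0, 0, fun h => by rw [h, norm_zero] at h0; norm_num at h0⟩
    exact Module.finrank_pos
  refine ⟨hca, haC, hβ.1, hβ.2, hYY, ?_, ?_⟩
  · have k8 := det_str (B := g x) (C := g' x) (hg.symm x hx) ha0.ne' hab hnn
    obtain ⟨A, -, -, hdet⟩ := frame hg hx
    rw [dens, dens, k8, Real.sqrt_mul hdet.le]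
  · intro v w
    have k9 : ∀ u, g' x Y u = (a + b * g x Y Y) * g x Y u := fun u => by rw [hab]; ring
    rw [k9 v, k9 w, hab v w]
    have := hβ.1.ne'
    field_simp
    ring

end Pool.Agent.H85.KW
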