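import Pool.Agent.H85.KW.Det

/-!
# Rigidity
-/

open Set Metric Filter Topology MeasureTheory
open scoped ContDiff RealInnerProductSpace ENNReal

noncomputable section

set_option maxSynthPendingDepth 3

namespace Pool.Agent.H85.KW

open Pool.Agent.W9h56.BE Pool.Agent.W5h72.BR

variable {E : Type*} [NormedAddCommGroup E] [InnerProductSpace ℝ E] [FiniteDimensional ℝ E]

variable {g g' : E → E →L[ℝ] E →L[ℝ] ℝ} {e L e' L' : E → E → E} {X : E → E}

/-- the factor `a` -/
def al (g g' : E → E →L[ℝ] E →L[ℝ] ℝ) (X : E → E) (x : E) : ℝ :=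
  if g x (X x) (X x) = 0 then
    ((gram (g' x)).det / (gram (g x)).det) ^ ((Module.finrank ℝ E : ℝ)⁻¹)
  else ((gram (g' x)).det / ((gram (g x)).det * (g' x (X x) (X x) / g x (X x) (X x)))) ^
    (((Module.finrank ℝ E - 1 : ℕ) : ℝ)⁻¹)

lemma al_eq (hg : IsMetric g) (hn : 2 ≤ Module.finrank ℝ E) {x : E}
    (hx : x ∈ closedBall (0 : E) 1) {a b : ℝ} (ha : 0 < a)
    (hβ : 0 < a + b * g x (X x) (X x))
    (hab : ∀ v w, g' x v w = a * g x v w + b * (g x (X x) v * g x (X x) w)) :
    al g g' X x = a := by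
  have k1 := det_str (B := g x) (C := g' x) (hg.symm x hx) ha.ne' hab (by omega)
  obtain ⟨A, -, -, hdet⟩ := frame hg hx
  unfold al
  split_ifs with h0
  · rw [k1, h0, mul_zero, add_zero, mul_div_cancel_left₀ _ hdet.ne']
    obtain ⟨m, hm⟩ : ∃ m, Module.finrank ℝ E = m + 1 := ⟨Module.finrank ℝ E - 1, by omega⟩
    rw [hm, Nat.add_sub_cancel, ← pow_succ]
    exact Real.pow_rpow_inv_natCast ha.le (by omega)
  · have k2 : g' x (X x) (X x) / g x (X x) (X x) = a + b * g x (X x) (X x) := by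
      rw [hab]
      field_simp
    rw [k2, k1, ← mul_assoc, mul_div_mul_right _ _ hβ.ne', mul_div_cancel_left₀ _ hdet.ne']
    exact Real.pow_rpow_inv_natCast ha.le (by omega)

variable [MeasurableSpace E] [BorelSpace E]

lemma measurable_al (hg : IsMetric g) (hg' : IsMetric g') (hX : Continuous X) :
    Measurable (al g g' X) := by
  have k1 : Measurable fun x => g x (X x) (X x) :=
    ((hg.cont.clm_apply hX).clm_apply hX).measurable
  have k2 : Measurable fun x => g' x (X x) (X x) :=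
    ((hg'.cont.clm_apply hX).clm_apply hX).measurable
  have k3 : Measurable fun x => (gram (g x)).det := (continuous_gram hg.cont).matrix_det.measurable
  have k4 : Measurable fun x => (gram (g' x)).det :=
    (continuous_gram hg'.cont).matrix_det.measurable
  unfold al
  refine Measurable.ite (measurableSet_eq_fun k1 measurable_const) ?_ ?_
  · exact (k4.div k3).pow_const _
  · exact (k4.div (k3.mul (k2.div k1))).pow_const _

/-- a nonnegative function with nonpositive integral vanishes almost everywhere -/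
lemma zero_of_int {f : E → ℝ} (hf : IntegrableOn f (ball (0 : E) 1))
    (hf0 : ∀ᵐ x ∂(volume.restrict (ball (0 : E) 1)), 0 ≤ f x)
    (hle : ∫ x in ball (0 : E) 1, f x ≤ 0) :
    ∀ᵐ x ∂(volume.restrict (ball (0 : E) 1)), f x = 0 := by
  have h1 : ∫ x in ball (0 : E) 1, f x = 0 := le_antisymm hle (integral_nonneg_of_ae hf0)
  exact (integral_eq_zero_iff_of_nonneg_ae hf0 hf).1 h1

theorem rigid (hn : 3 ≤ Module.finrank ℝ E) (h : Simple g e L) (h' : Simple g' e' L')
    (hd : ∀ p ∈ sphere (0 : E) 1, ∀ q ∈ sphere (0 : E) 1, gdist g p q = gdist g' p q)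
    (hX : ContDiff ℝ 1 X) (hK : IsKilling g X) (hK' : IsKilling g' X)
    (hint : IntegrableOn (fun x => ‖X x‖⁻¹) (closedBall (0 : E) 1))
    (hne : ∀ᵐ x ∂(volume.restrict (ball (0 : E) 1)), X x ≠ 0)
    (hstr : ∀ x ∈ closedBall (0 : E) 1, ∃ a b : ℝ, ∀ v w,
      g' x v w = a * g x v w + b * (g x (X x) v * g x (X x) w)) :
    ∀ x ∈ closedBall (0 : E) 1, g' x = g x := by
  have hg := Simple_isMetric h
  have hg' := Simple_isMetric h'
  have hXc := hX.continuous
  have hn0 : 0 < Module.finrank ℝ E := by omega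
  -- orthonormal vectors
  obtain ⟨e0, e1, h0, h1, h01⟩ : ∃ e0 e1 : E, ‖e0‖ = 1 ∧ ‖e1‖ = 1 ∧ inner ℝ e0 e1 = 0 := by
    have hb := (stdOrthonormalBasis ℝ E).orthonormal
    refine ⟨_, _, hb.1 ⟨0, by omega⟩, hb.1 ⟨1, by omega⟩, hb.2 ?_⟩
    simp [Fin.ext_iff]
  -- constants
  obtain ⟨c, hc, C, hC, hcC⟩ := exists_equiv hg hg' hn0
  -- the functions
  obtain ⟨a, b, ham, hab⟩ : ∃ a b : E → ℝ, Measurable a ∧ Str g g' X a b := by
    choose! a b hab using hstr
    refine ⟨al g g' X, b, measurable_al hg hg' hXc, fun x hx v w => ?_⟩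
    obtain ⟨k1, -, k3, -⟩ := str_pt hg h0 h1 h01 hx (hab x hx) hc (hcC x hx)
    rw [al_eq hg (by omega) hx (hc.trans_le k1) k3 (hab x hx)]
    exact hab x hx v w
  have P := fun x (hx : x ∈ closedBall (0 : E) 1) =>
    str_pt hg h0 h1 h01 hx (hab x hx) hc (hcC x hx)
  set β : E → ℝ := fun x => a x + b x * g x (X x) (X x) with hβ
  set a' : E → ℝ := fun x => (a x)⁻¹ with ha'
  set b' : E → ℝ := fun x => -b x / (a x * β x ^ 2) with hb'
  have hab' : Str g' g X a' b' := fun x hx v w => (P x hx).2.2.2.2.2.2 v w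
  have hsub := ball_subset_closedBall (x := (0 : E)) (ε := 1)
  have ha0 : ∀ x ∈ closedBall (0 : E) 1, 0 < a x := fun x hx => hc.trans_le (P x hx).1
  have hβ0 : ∀ x ∈ closedBall (0 : E) 1, 0 < β x := fun x hx => (P x hx).2.2.1
  have hβC : ∀ x ∈ closedBall (0 : E) 1, β x ≤ C := fun x hx => (P x hx).2.2.2.1
  have hYY : ∀ x ∈ closedBall (0 : E) 1, g' x (X x) (X x) = β x * g x (X x) (X x) :=
    fun x hx => (P x hx).2.2.2.2.1
  have hD : ∀ x ∈ closedBall (0 : E) 1,
      dens (g' x) = dens (g x) * √(a x ^ (Module.finrank ℝ E - 1) * β x) :=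
    fun x hx => (P x hx).2.2.2.2.2.1
  have hR : ∀ x ∈ closedBall (0 : E) 1, nX g X x ^ 2 = g x (X x) (X x) := fun x hx =>
    nX_sq hg hx
  have hR' : ∀ x ∈ closedBall (0 : E) 1, nX g' X x ^ 2 = β x * nX g X x ^ 2 := fun x hx => by
    rw [nX_sq hg' hx, hR x hx, hYY x hx]
  have hRR : ∀ x ∈ closedBall (0 : E) 1, nX g' X x = √(β x) * nX g X x := fun x hx => by
    rw [← Real.sqrt_sq (nX_nonneg (g := g') (X := X) x), hR' x hx, Real.sqrt_mul (hβ0 x hx).le,
      Real.sqrt_sq (nX_nonneg x)]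
  -- the length does not vanish
  have hpos : ∀ᵐ x ∂(volume.restrict (ball (0 : E) 1)), 0 < nX g X x := by
    filter_upwards [hne, ae_restrict_mem measurableSet_ball] with x hx hxb
    exact Real.sqrt_pos.2 (hg.pos x (hsub hxb) _ hx)
  have hpos' : ∀ᵐ x ∂(volume.restrict (ball (0 : E) 1)), 0 < nX g' X x := by
    filter_upwards [hne, ae_restrict_mem measurableSet_ball] with x hx hxb
    exact Real.sqrt_pos.2 (hg'.pos x (hsub hxb) _ hx)
  -- integrability
  have hinv : ∀ {k : E → E →L[ℝ] E →L[ℝ] ℝ}, IsMetric k →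
      IntegrableOn (fun x => (nX k X x)⁻¹) (ball (0 : E) 1) := by
    intro k hk
    obtain ⟨m, hm, hlow⟩ := exists_lower hk hn0
    have h2 := (hint.mono_set hsub).const_mul ((√m)⁻¹)
    refine h2.mono' ((continuous_nX hk hXc).measurable.inv).aestronglyMeasurable ?_
    refine (ae_restrict_iff' measurableSet_ball).2 (Eventually.of_forall fun x hx => ?_)
    rw [Real.norm_eq_abs, abs_of_nonneg (inv_nonneg.2 (nX_nonneg x)), ← mul_inv]
    have hsm : 0 < √m := Real.sqrt_pos.2 hm
    have h3 : √m * ‖X x‖ ≤ nX k X x := by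
      rw [← Real.sqrt_sq (norm_nonneg (X x)), ← Real.sqrt_mul hm.le]
      exact Real.sqrt_le_sqrt (hlow x (hsub hx) _)
    by_cases hX0 : X x = 0
    · have : nX k X x = 0 := by rw [nX, hX0]; simp
      rw [this, hX0]
      simp
    · exact inv_anti₀ (mul_pos hsm (norm_pos_iff.2 hX0)) h3
  have hint1 := hinv hg
  have hint2 := hinv hg'
  -- the numbers `t`
  set t : E → ℝ := fun x => (g' x (X x) (X x) - a x * g x (X x) (X x)) / g x (X x) (X x) with ht
  set t' : E → ℝ := fun x => (g x (X x) (X x) - a' x * g' x (X x) (X x)) / g' x (X x) (X x)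
    with ht'
  have ham' : Measurable a' := ham.inv
  have htm : ∀ {k k' : E → E →L[ℝ] E →L[ℝ] ℝ} {f : E → ℝ}, IsMetric k → IsMetric k' →
      Measurable f → Measurable
        fun x => (k' x (X x) (X x) - f x * k x (X x) (X x)) / k x (X x) (X x) := by
    intro k k' f hk hk' hf
    have k1 : Measurable fun x => k x (X x) (X x) :=
      ((hk.cont.clm_apply hXc).clm_apply hXc).measurable
    have k2 : Measurable fun x => k' x (X x) (X x) :=
      ((hk'.cont.clm_apply hXc).clm_apply hXc).measurable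
    exact (k2.sub (hf.mul k1)).div k1
  have htmeas : Measurable t := htm hg hg' ham
  have htmeas' : Measurable t' := htm hg' hg ham'
  have hbt : ∀ x ∈ closedBall (0 : E) 1, b x * nX g X x ^ 2 = t x := by
    intro x hx
    rw [hR x hx, ht]
    simp only
    by_cases hz : g x (X x) (X x) = 0
    · rw [hz]; simp
    · rw [hab x hx]
      field_simp
      ring
  have hβt : ∀ x ∈ closedBall (0 : E) 1, β x = a x + t x := fun x hx => by
    rw [← hbt x hx, hR x hx]
  have hbt' : ∀ x ∈ closedBall (0 : E) 1, b' x * nX g' X x ^ 2 = t' x := by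
    intro x hx
    rw [nX_sq hg' hx, ht']
    simp only
    by_cases hz : g' x (X x) (X x) = 0
    · rw [hz]; simp
    · have := hab' x hx (X x) (X x)
      rw [this]
      field_simp
      ring
  have ht'1 : ∀ x ∈ closedBall (0 : E) 1, a' x + t' x = (β x)⁻¹ := by
    intro x hx
    rw [← hbt' x hx, hR' x hx, ha', hb']
    simp only
    have k1 := ha0 x hx
    have k2 := hβ0 x hx
    have k3 := hβt x hx
    have k4 := hbt x hx
    have k5 : t x = β x - a x := by linarith
    have k6 : -b x / (a x * β x ^ 2) * (β x * nX g X x ^ 2) =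
      -(b x * nX g X x ^ 2) / (a x * β x) := by field_simp
    rw [k6, k4, k5]
    field_simp
    ring
  -- step 1
  have hca : ∀ x ∈ ball (0 : E) 1, c ≤ a x := fun x hx => (P x (hsub hx)).1
  have haC : ∀ x ∈ ball (0 : E) 1, a x ≤ C := fun x hx => (P x (hsub hx)).2.1
  have hcβ : ∀ x ∈ ball (0 : E) 1, X x ≠ 0 → c ≤ β x := by
    intro x hx hx0
    have k1 := (hcC x (hsub hx) (X x)).1
    rw [hYY x (hsub hx)] at k1
    exact le_of_mul_le_mul_right k1 (hg.pos x (hsub hx) _ hx0)
  have hcβ' : ∀ x ∈ ball (0 : E) 1, c ≤ β x := by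
    intro x hx
    by_cases hx0 : X x = 0
    · have : β x = a x := by rw [hβ]; simp only; rw [hx0]; simp
      rw [this]
      exact hca x hx
    · exact hcβ x hx hx0
  have hd1 : ∀ p ∈ sphere (0 : E) 1, ∀ q ∈ sphere (0 : E) 1, gdist g p q ≤ gdist g' p q :=
    fun p hp q hq => (hd p hp q hq).le
  have hd2 : ∀ p ∈ sphere (0 : E) 1, ∀ q ∈ sphere (0 : E) 1, gdist g' p q ≤ gdist g p q :=
    fun p hp q hq => (hd p hp q hq).ge
  have I1 := step1 h hg' hX hK hd1 h0 h1 h01 hab ham hc hC.le hca haC (fun x hx => by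
    rw [hbt x (hsub hx)]
    have := hβt x (hsub hx)
    have k1 := hβC x (hsub hx)
    have k2 := ha0 x (hsub hx)
    linarith) hint1 hpos
  have hCc : C⁻¹ ≤ c⁻¹ := by
    have hcC' : c ≤ C := by
      have := P 0 (by simp)
      exact this.1.trans this.2.1
    exact inv_anti₀ hc hcC'
  have I2 := step1 h' hg hX hK' hd2 h0 h1 h01 hab' ham' (inv_pos.2 hC) (inv_pos.2 hc).le
    (fun x hx => inv_anti₀ (ha0 x (hsub hx)) (haC x hx))
    (fun x hx => inv_anti₀ hc (hca x hx)) (fun x hx => by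
      rw [hbt' x (hsub hx)]
      have k1 := ht'1 x (hsub hx)
      have k2 : 0 < a' x := inv_pos.2 (ha0 x (hsub hx))
      have k3 : (β x)⁻¹ ≤ c⁻¹ := inv_anti₀ hc (hcβ' x hx)
      linarith) hint2 hpos'
  obtain ⟨k, hk⟩ : ∃ k, Module.finrank ℝ E - 1 = k + 1 + 1 := ⟨Module.finrank ℝ E - 3, by omega⟩
  -- the function of step 1
  have hmR : Measurable (nX g X) := (continuous_nX hg hXc).measurable
  have huC : ∀ x ∈ ball (0 : E) 1, √(a x) ≤ √C := fun x hx => Real.sqrt_le_sqrt (haC x hx)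
  have iu : ∀ j : ℕ, IntegrableOn (fun x => dens (g x) * ((nX g X x)⁻¹ * √(a x) ^ j))
      (ball (0 : E) 1) := by
    intro j
    refine int_P hg hXc hint1 (hmR.inv.mul (ham.sqrt.pow_const j)) (C := √C ^ j) fun x hx => ?_
    rw [abs_of_nonneg (mul_nonneg (inv_nonneg.2 (nX_nonneg x)) (by positivity)), mul_comm]
    refine mul_le_mul (pow_le_pow_left₀ (Real.sqrt_nonneg _) (huC x hx) j) ?_
      (inv_nonneg.2 (nX_nonneg x)) (by positivity)
    linarith
  have hI2l : ∫ x in ball (0 : E) 1, dens (g' x) * (nX g' X x)⁻¹ =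
      ∫ x in ball (0 : E) 1, dens (g x) * ((nX g X x)⁻¹ * √(a x) ^ (k + 2)) := by
    refine integral_congr_ae ?_
    filter_upwards [hpos, ae_restrict_mem measurableSet_ball] with x hx hxb
    have hxM := hsub hxb
    have k1 : 0 < √(β x) := Real.sqrt_pos.2 (hβ0 x hxM)
    rw [hD x hxM, hRR x hxM, hk, Real.sqrt_mul (pow_nonneg (ha0 x hxM).le _), Real.sqrt_eq_rpow,
      ← Real.rpow_natCast, ← Real.rpow_mul (ha0 x hxM).le, mul_comm ((_ : ℕ) : ℝ),
      Real.rpow_mul (ha0 x hxM).le, ← Real.sqrt_eq_rpow, Real.rpow_natCast]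
    field_simp
  have hI2r : ∫ x in ball (0 : E) 1, dens (g' x) * ((nX g' X x)⁻¹ * √(a' x)) =
      ∫ x in ball (0 : E) 1, dens (g x) * ((nX g X x)⁻¹ * √(a x) ^ (k + 1)) := by
    refine integral_congr_ae ?_
    filter_upwards [hpos, ae_restrict_mem measurableSet_ball] with x hx hxb
    have hxM := hsub hxb
    have k1 : 0 < √(β x) := Real.sqrt_pos.2 (hβ0 x hxM)
    have k2 : 0 < √(a x) := Real.sqrt_pos.2 (ha0 x hxM)
    have k3 : √(a' x) = (√(a x))⁻¹ := Real.sqrt_inv _
    rw [hD x hxM, hRR x hxM, hk, Real.sqrt_mul (pow_nonneg (ha0 x hxM).le _), k3,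
      show √(a x ^ (k + 1 + 1)) = √(a x) ^ (k + 2) by
        rw [Real.sqrt_eq_rpow, ← Real.rpow_natCast, ← Real.rpow_mul (ha0 x hxM).le,
          mul_comm ((_ : ℕ) : ℝ), Real.rpow_mul (ha0 x hxM).le, ← Real.sqrt_eq_rpow,
          Real.rpow_natCast]]
    field_simp
    ring
  rw [hI2l, hI2r] at I2
  have I1' : ∫ x in ball (0 : E) 1, dens (g x) * ((nX g X x)⁻¹ * √(a x) ^ 0) ≤
      ∫ x in ball (0 : E) 1, dens (g x) * ((nX g X x)⁻¹ * √(a x) ^ 1) := by
    simpa only [pow_zero, pow_one, mul_one] using I1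
  have hsum : ∫ x in ball (0 : E) 1, (dens (g x) * ((nX g X x)⁻¹ * √(a x) ^ 0) -
      dens (g x) * ((nX g X x)⁻¹ * √(a x) ^ 1) + (dens (g x) * ((nX g X x)⁻¹ * √(a x) ^ (k + 2)) -
      dens (g x) * ((nX g X x)⁻¹ * √(a x) ^ (k + 1)))) ≤ 0 := by
    have i01 : IntegrableOn (fun x => dens (g x) * ((nX g X x)⁻¹ * √(a x) ^ 0) -
      dens (g x) * ((nX g X x)⁻¹ * √(a x) ^ 1)) (ball (0 : E) 1) := (iu 0).sub (iu 1)
    have i23 : IntegrableOn (fun x => dens (g x) * ((nX g X x)⁻¹ * √(a x) ^ (k + 2)) -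
      dens (g x) * ((nX g X x)⁻¹ * √(a x) ^ (k + 1))) (ball (0 : E) 1) :=
      (iu (k + 2)).sub (iu (k + 1))
    rw [integral_add i01 i23,
      integral_sub (iu 0) (iu 1), integral_sub (iu (k + 2)) (iu (k + 1))]
    linarith
  have hfac : ∀ x, dens (g x) * ((nX g X x)⁻¹ * √(a x) ^ 0) -
      dens (g x) * ((nX g X x)⁻¹ * √(a x) ^ 1) + (dens (g x) * ((nX g X x)⁻¹ * √(a x) ^ (k + 2)) -
      dens (g x) * ((nX g X x)⁻¹ * √(a x) ^ (k + 1))) =
      dens (g x) * (nX g X x)⁻¹ * ((√(a x) - 1) * (√(a x) ^ (k + 1) - 1)) := by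
    intro x
    ring
  have hsign : ∀ u : ℝ, 0 ≤ u → 0 ≤ (u - 1) * (u ^ (k + 1) - 1) := by
    intro u hu
    rcases le_total u 1 with h2 | h2
    · exact mul_nonneg_of_nonpos_of_nonpos (by linarith) (by
        have := pow_le_one₀ (n := k + 1) hu h2
        linarith)
    · exact mul_nonneg (by linarith) (by
        have := one_le_pow₀ (n := k + 1) h2
        linarith)
  have hZ := zero_of_int (f := fun x => dens (g x) * ((nX g X x)⁻¹ * √(a x) ^ 0) -
      dens (g x) * ((nX g X x)⁻¹ * √(a x) ^ 1) + (dens (g x) * ((nX g X x)⁻¹ * √(a x) ^ (k + 2)) -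
      dens (g x) * ((nX g X x)⁻¹ * √(a x) ^ (k + 1))))
    (((iu 0).sub (iu 1)).add ((iu (k + 2)).sub (iu (k + 1))))
    (Eventually.of_forall fun x => by
      rw [hfac x]
      exact mul_nonneg (mul_nonneg (dens_nonneg _) (inv_nonneg.2 (nX_nonneg x)))
        (hsign _ (Real.sqrt_nonneg _))) hsum
  have ha1 : ∀ᵐ x ∂(volume.restrict (ball (0 : E) 1)), a x = 1 := by
    filter_upwards [hZ, hpos, ae_restrict_mem measurableSet_ball] with x hx hxp hxb
    have hxM := hsub hxb
    rw [hfac x] at hx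
    have k1 : 0 < dens (g x) * (nX g X x)⁻¹ := mul_pos (dens_pos hg hxM) (inv_pos.2 hxp)
    have k2 : (√(a x) - 1) * (√(a x) ^ (k + 1) - 1) = 0 :=
      (mul_eq_zero.1 hx).resolve_left k1.ne'
    have k3 : √(a x) = 1 := by
      rcases mul_eq_zero.1 k2 with h2 | h2
      · linarith
      · have h3 : √(a x) ^ (k + 1) = 1 := by linarith
        exact (pow_eq_one_iff_of_nonneg (Real.sqrt_nonneg (a x)) (Nat.succ_ne_zero k)).1 h3
    rw [← Real.sq_sqrt (ha0 x hxM).le, k3, one_pow]
  -- step 2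
  have ha1' : ∀ᵐ x ∂(volume.restrict (ball (0 : E) 1)), a' x = 1 := by
    filter_upwards [ha1] with x hx
    rw [ha']
    simp only
    rw [hx, inv_one]
  have J1 := step2 h hg' hX hK hd1 h0 hab htmeas (fun x hx => hbt x (hsub hx)) (C := C)
    (fun x hx => by
      have k1 := hβt x (hsub hx)
      have k2 := hβC x (hsub hx)
      have k3 := haC x hx
      have k4 := ha0 x (hsub hx)
      have k5 := hβ0 x (hsub hx)
      rw [abs_le]
      constructor <;> linarith) (fun x hx => by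
      rw [← hβt x (hsub hx)]
      exact (hβ0 x (hsub hx)).le) ha1 hn0
  have J2 := step2 h' hg hX hK' hd2 h0 hab' htmeas' (fun x hx => hbt' x (hsub hx)) (C := c⁻¹)
    (fun x hx => by
      have k1 := ht'1 x (hsub hx)
      have k2 : (β x)⁻¹ ≤ c⁻¹ := inv_anti₀ hc (hcβ' x hx)
      have k3 : a' x ≤ c⁻¹ := inv_anti₀ hc (hca x hx)
      have k4 : 0 < a' x := inv_pos.2 (ha0 x (hsub hx))
      have k5 : 0 < (β x)⁻¹ := inv_pos.2 (hβ0 x (hsub hx))
      rw [abs_le]
      constructor <;> linarith) (fun x hx => by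
      rw [ht'1 x (hsub hx)]
      exact (inv_pos.2 (hβ0 x (hsub hx))).le) ha1' hn0
  have hJ2 : ∫ x in ball (0 : E) 1, dens (g' x) * (nX g' X x ^ 2 * t' x) =
      ∫ x in ball (0 : E) 1, -(dens (g x) * nX g X x ^ 2 * t x * √(β x)) := by
    refine integral_congr_ae ?_
    filter_upwards [ha1, ae_restrict_mem measurableSet_ball] with x hx hxb
    have hxM := hsub hxb
    have k1 := ht'1 x hxM
    have k2 : a' x = 1 := by rw [ha']; simp only; rw [hx, inv_one]
    have k3 := hβt x hxM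
    have k4 := hβ0 x hxM
    rw [hx] at k3
    rw [k2] at k1
    have k5 : t' x = (β x)⁻¹ - 1 := by linarith
    have k6 : t x = β x - 1 := by linarith
    rw [hD x hxM, hR' x hxM, hx, one_pow, one_mul, k5, k6]
    field_simp
    ring
  rw [hJ2] at J2
  have hRc := continuous_nX hg hXc
  have i0 : IntegrableOn (fun x => dens (g x) * nX g X x ^ 2) (ball (0 : E) 1) :=
    (intOn ((continuous_dens hg.cont).mul (hRc.pow 2)).continuousOn).mono_set hsub
  have hβm : Measurable fun x => a x + t x := ham.add htmeas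
  have hmD : Measurable fun x => dens (g x) * nX g X x ^ 2 :=
    (measurable_dens hg).mul (hmR.pow_const 2)
  have htC : ∀ x ∈ ball (0 : E) 1, |t x| ≤ C := fun x hx => by
    have k1 := hβt x (hsub hx)
    have k2 := hβC x (hsub hx)
    have k3 := haC x hx
    have k4 := ha0 x (hsub hx)
    have k5 := hβ0 x (hsub hx)
    rw [abs_le]
    constructor <;> linarith
  have hDR : ∀ x, 0 ≤ dens (g x) * nX g X x ^ 2 := fun x =>
    mul_nonneg (dens_nonneg _) (sq_nonneg _)
  have i1 : IntegrableOn (fun x => dens (g x) * (nX g X x ^ 2 * t x)) (ball (0 : E) 1) := by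
    have h3 := i0.const_mul C
    refine h3.mono' ((measurable_dens hg).mul ((hmR.pow_const 2).mul htmeas)).aestronglyMeasurable ?_
    refine (ae_restrict_iff' measurableSet_ball).2 (Eventually.of_forall fun x hx => ?_)
    rw [← mul_assoc, Real.norm_eq_abs, abs_mul, abs_of_nonneg (hDR x), mul_comm]
    exact mul_le_mul_of_nonneg_right (htC x hx) (hDR x)
  have i2 : IntegrableOn (fun x => -(dens (g x) * nX g X x ^ 2 * t x * √(β x)))
      (ball (0 : E) 1) := by
    have h3 := i0.const_mul (C * √C)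
    have hm1 : Measurable fun x => -(dens (g x) * nX g X x ^ 2 * t x * √(a x + t x)) :=
      ((hmD.mul htmeas).mul hβm.sqrt).neg
    have h4 : IntegrableOn (fun x => -(dens (g x) * nX g X x ^ 2 * t x * √(a x + t x)))
        (ball (0 : E) 1) := by
      refine h3.mono' hm1.aestronglyMeasurable ?_
      refine (ae_restrict_iff' measurableSet_ball).2 (Eventually.of_forall fun x hx => ?_)
      rw [Real.norm_eq_abs, abs_neg, abs_mul, abs_mul, abs_of_nonneg (hDR x),
        abs_of_nonneg (Real.sqrt_nonneg _), ← hβt x (hsub hx)]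
      have k1 := htC x hx
      have k2 : √(β x) ≤ √C := Real.sqrt_le_sqrt (hβC x (hsub hx))
      have k3 : |t x| * √(β x) ≤ C * √C :=
        mul_le_mul k1 k2 (Real.sqrt_nonneg _) hC.le
      calc dens (g x) * nX g X x ^ 2 * |t x| * √(β x) =
            dens (g x) * nX g X x ^ 2 * (|t x| * √(β x)) := by ring
        _ ≤ dens (g x) * nX g X x ^ 2 * (C * √C) := mul_le_mul_of_nonneg_left k3 (hDR x)
        _ = _ := by ring
    refine h4.congr_fun (fun x hx => ?_) measurableSet_ball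
    simp only
    rw [hβt x (hsub hx)]
  have hJ : ∫ x in ball (0 : E) 1, -(dens (g x) * (nX g X x ^ 2 * t x) +
      -(dens (g x) * nX g X x ^ 2 * t x * √(β x))) ≤ 0 := by
    rw [integral_neg, integral_add i1 i2]
    linarith
  have hZ2 := zero_of_int (i1.add i2).neg (by
    filter_upwards [ha1, ae_restrict_mem measurableSet_ball] with x hx hxb
    have hxM := hsub hxb
    have k3 := hβt x hxM
    rw [hx] at k3
    have k4 := hβ0 x hxM
    have k5 : t x = β x - 1 := by linarith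
    have k6 : √(β x) ^ 2 = β x := Real.sq_sqrt k4.le
    have k7 : 0 ≤ √(β x) := Real.sqrt_nonneg _
    simp only [Pi.neg_apply, Pi.add_apply]
    have k8 : -(dens (g x) * (nX g X x ^ 2 * t x) + -(dens (g x) * nX g X x ^ 2 * t x * √(β x))) =
        dens (g x) * nX g X x ^ 2 * ((√(β x) - 1) ^ 2 * (√(β x) + 1)) := by
      rw [k5, ← k6, Real.sqrt_sq k7]
      ring
    rw [k8]
    exact mul_nonneg (hDR x) (mul_nonneg (sq_nonneg _) (by linarith))) hJ
  -- conclusion
  refine all_of_ae hg'.cont.continuousOn hg.cont.continuousOn ?_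
  filter_upwards [ha1, hZ2, hpos, ae_restrict_mem measurableSet_ball] with x hx hx2 hxp hxb
  have hxM := hsub hxb
  have k3 := hβt x hxM
  rw [hx] at k3
  have k4 := hβ0 x hxM
  have k5 : t x = β x - 1 := by linarith
  have k6 : √(β x) ^ 2 = β x := Real.sq_sqrt k4.le
  have k7 : 0 ≤ √(β x) := Real.sqrt_nonneg _
  simp only [Pi.neg_apply, Pi.add_apply] at hx2
  have k8 : -(dens (g x) * (nX g X x ^ 2 * t x) + -(dens (g x) * nX g X x ^ 2 * t x * √(β x))) =
      dens (g x) * nX g X x ^ 2 * ((√(β x) - 1) ^ 2 * (√(β x) + 1)) := by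
    rw [k5, ← k6, Real.sqrt_sq k7]
    ring
  rw [k8] at hx2
  have k9 : 0 < dens (g x) * nX g X x ^ 2 := mul_pos (dens_pos hg hxM) (by positivity)
  have k10 : (√(β x) - 1) ^ 2 * (√(β x) + 1) = 0 := (mul_eq_zero.1 hx2).resolve_left k9.ne'
  have k11 : √(β x) = 1 := by
    rcases mul_eq_zero.1 k10 with h2 | h2
    · have := pow_eq_zero_iff (two_ne_zero) |>.1 h2
      linarith
    · linarith
  have k12 : β x = 1 := by rw [← k6, k11, one_pow]
  have k13 : b x = 0 := by
    have k14 : b x * nX g X x ^ 2 = 0 := by rw [hbt x hxM, k5, k12, sub_self]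
    exact (mul_eq_zero.1 k14).resolve_right (by positivity)
  ext v w
  rw [hab x hxM, hx, k13]
  ring

end Pool.Agent.H85.KW
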