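import Pool.Agent.H85.KW.Cmp

/-!
# Killing fields and first integrals of the geodesic flow
-/

open Set Metric Filter Topology MeasureTheory
open scoped ContDiff RealInnerProductSpace ENNReal

noncomputable section

set_option maxSynthPendingDepth 3

namespace Pool.Agent.H85.KW

open Pool.Agent.W9h56.BE Pool.Agent.W5h72.BR

variable {E : Type*} [NormedAddCommGroup E] [InnerProductSpace ℝ E]

/-- `X` is a Killing field of `g` on `M` (the closed unit ball): the Lie derivative of `g` in the
direction of `X` vanishes -/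
def IsKilling (g : E → E →L[ℝ] E →L[ℝ] ℝ) (X : E → E) : Prop :=
  ∀ x ∈ closedBall (0 : E) 1, ∀ v w,
    fderiv ℝ g x (X x) v w + g x (fderiv ℝ X x v) w + g x v (fderiv ℝ X x w) = 0

variable {g g' : E → E →L[ℝ] E →L[ℝ] ℝ} {e L e' L' : E → E → E} {X : E → E}

lemma fderiv_symm (hg : ContDiff ℝ ∞ g)
    (hs : ∀ x ∈ closedBall (0 : E) 1, ∀ v w, g x v w = g x w v) {x : E}
    (hx : x ∈ closedBall (0 : E) 1) (u v w : E) : fderiv ℝ g x u v w = fderiv ℝ g x u w v := by
  have hU : UniqueDiffWithinAt ℝ (closedBall (0 : E) 1) x := by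
    refine uniqueDiffOn_convex (convex_closedBall _ _) ?_ x hx
    rw [interior_closedBall _ one_ne_zero]
    exact ⟨0, by simp⟩
  have hd : HasFDerivAt g (fderiv ℝ g x) x := (hg.differentiable (by simp) x).hasFDerivAt
  have h1 := ((hd.clm_apply (hasFDerivAt_const v x)).clm_apply
    (hasFDerivAt_const w x)).hasFDerivWithinAt (s := closedBall (0 : E) 1)
  have h2 := ((hd.clm_apply (hasFDerivAt_const w x)).clm_apply
    (hasFDerivAt_const v x)).hasFDerivWithinAt (s := closedBall (0 : E) 1)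
  have h3 := hU.eq (h1.congr (fun y hy => hs y hy w v) (hs x hx w v)) h2
  have h4 := congrArg (fun T : E →L[ℝ] ℝ => T u) h3
  simpa using h4

/-- a Killing field gives a first integral of the geodesic flow -/
lemma first_integral (hg : ContDiff ℝ ∞ g)
    (hs : ∀ x ∈ closedBall (0 : E) 1, ∀ v w, g x v w = g x w v) (hX : ContDiff ℝ 1 X)
    (hK : IsKilling g X) {γ u : ℝ → E} (h : IsGeod g γ u) {t : ℝ} (ht : t ∈ Icc (0 : ℝ) 1) :
    g (γ t) (X (γ t)) (u t) = g (γ 0) (X (γ 0)) (u 0) := by
  have hder : ∀ r ∈ Icc (0 : ℝ) 1,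
      HasDerivWithinAt (fun r => g (γ r) (X (γ r)) (u r)) 0 (Icc 0 1) r := by
    intro r hr
    obtain ⟨a, ha, hacc⟩ := h.acc r hr
    have h1 : HasDerivWithinAt (fun r => g (γ r)) (fderiv ℝ g (γ r) (u r)) (Icc 0 1) r := by
      have hgd : HasFDerivAt g (fderiv ℝ g (γ r)) (γ r) :=
        (hg.differentiable (by simp) (γ r)).hasFDerivAt
      exact HasFDerivAt.comp_hasDerivWithinAt (f := γ) (l := g) r hgd (h.vel r hr)
    have h1' : HasDerivWithinAt (fun r => X (γ r)) (fderiv ℝ X (γ r) (u r)) (Icc 0 1) r := by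
      have hgd : HasFDerivAt X (fderiv ℝ X (γ r)) (γ r) :=
        (hX.differentiable (by norm_num) (γ r)).hasFDerivAt
      exact HasFDerivAt.comp_hasDerivWithinAt (f := γ) (l := X) r hgd (h.vel r hr)
    have h2 := (h1.clm_apply h1').clm_apply ha
    refine h2.congr_deriv ?_
    have hM := h.mem r hr
    have e1 := hacc (X (γ r))
    have e2 := hs (γ r) hM a (X (γ r))
    have e3 := fderiv_symm hg hs hM (u r) (X (γ r)) (u r)
    have e4 := hK (γ r) hM (u r) (u r)
    have e5 := hs (γ r) hM (u r) (fderiv ℝ X (γ r) (u r))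
    rw [add_apply]
    linarith
  have hc : ContinuousOn (fun r => g (γ r) (X (γ r)) (u r)) (Icc 0 1) :=
    fun r hr => (hder r hr).continuousWithinAt
  have := constant_of_derivWithin_zero (a := (0 : ℝ)) (b := 1)
    (f := fun r => g (γ r) (X (γ r)) (u r))
    (fun r hr => (hder r hr).differentiableWithinAt)
    (fun r hr => by
      have hr' : r ∈ Icc (0 : ℝ) 1 := Ico_subset_Icc_self hr
      exact (hder r hr').derivWithin (uniqueDiffOn_Icc (by norm_num) r hr'))
  exact this t ht

/-- the first integral along the geodesic from `p` to `q` -/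
lemma integral_seg (h : Simple g e L) (hX : ContDiff ℝ 1 X) (hK : IsKilling g X) {p q : E}
    (hp : p ∈ sphere (0 : E) 1) (hq : q ∈ sphere (0 : E) 1) (hpq : p ≠ q) {s : ℝ}
    (hs : s ∈ Ioo (0 : ℝ) (rho g L p q)) :
    g (e p ((s / rho g L p q) • L p q)) (X (e p ((s / rho g L p q) • L p q)))
      (uu g L (e p ((s / rho g L p q) • L p q)) p) =
      -((rho g L p q)⁻¹ * g p (X p) (L p q)) := by
  have hpM := mem_of_sphere hp
  have hqM := mem_of_sphere hq
  have hr := h.rho_pos hpM hqM hpq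
  set r := rho g L p q with hrd
  obtain ⟨γ, u, hγ, h0, hu, h1⟩ := h.exists_geod hpM hqM
  have ht : s / r ∈ Ioo (0 : ℝ) 1 := ⟨div_pos hs.1 hr, (div_lt_one hr).2 hs.2⟩
  have ht' := Ioo_subset_Icc_self ht
  set t := s / r with htd
  have hγt : e p (t • L p q) = γ t := by
    have := h.geod_eq hγ ht'
    rw [h0, hu] at this
    exact this.symm
  have h2 : L (γ t) p = -(t • u t) := by
    have := h.L_geod hγ ht' zero_mem01
    rw [h0, zero_sub, neg_smul] at this
    exact this
  have h3 : rho g L (γ t) p = t * r := by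
    rw [h.rho_symm (hγ.mem t ht') hpM, ← hγt, h.rho_pt hpM hqM ht']
  have h4 : uu g L (γ t) p = (-r⁻¹) • u t := by
    rw [uu, h2, h3, smul_neg, ← neg_smul, smul_smul]
    congr 1
    have := ht.1.ne'
    field_simp
  rw [hγt, h4, map_smul, first_integral h.smooth h.symm hX hK hγ ht', h0, hu, smul_eq_mul]
  ring

end Pool.Agent.H85.KW
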