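import Pool.Agent.H85.KW.One

/-!
# The limit of the weights
-/

open Set Metric Filter Topology MeasureTheory
open scoped ContDiff RealInnerProductSpace ENNReal

noncomputable section

set_option maxSynthPendingDepth 3

namespace Pool.Agent.H85.KW

open Pool.Agent.W9h56.BE Pool.Agent.W5h72.BR

variable {E : Type*} [NormedAddCommGroup E] [InnerProductSpace ℝ E] [FiniteDimensional ℝ E]
  [MeasurableSpace E] [BorelSpace E]

variable {g g' : E → E →L[ℝ] E →L[ℝ] ℝ} {e L e' L' : E → E → E} {X : E → E}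

/-- the exponents -/
def pk (k : ℕ) : ℝ := -1 + 1 / ((k : ℝ) + 2)

lemma pk_gt (k : ℕ) : -1 < pk k := by
  have : (0 : ℝ) < 1 / ((k : ℝ) + 2) := by positivity
  unfold pk
  linarith

lemma pk_lt (k : ℕ) : pk k < 0 := by
  have h1 : (0 : ℝ) < (k : ℝ) + 2 := by positivity
  have h2 : 1 / ((k : ℝ) + 2) < 1 := by
    rw [div_lt_one h1]
    have : (0 : ℝ) ≤ k := Nat.cast_nonneg k
    linarith
  unfold pk
  linarith

lemma tendsto_pk : Tendsto pk atTop (𝓝 (-1)) := by
  have h1 : Tendsto (fun k : ℕ => (k : ℝ) + 2) atTop atTop :=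
    tendsto_atTop_add_const_right _ _ tendsto_natCast_atTop_atTop
  have h2 : Tendsto (fun k : ℕ => 1 / ((k : ℝ) + 2)) atTop (𝓝 0) := by
    simp only [one_div]
    exact tendsto_inv_atTop_zero.comp h1
  have := h2.const_add (-1)
  rw [add_zero] at this
  exact this

/-- the moments tend to infinity -/
lemma moment_ge {e0 e1 : E} (h0 : ‖e0‖ = 1) (h1 : ‖e1‖ = 1) (h01 : inner ℝ e0 e1 = 0) (k : ℕ) :
    3 / 16 * ((k : ℝ) + 2) * (volume (ball ((1 / 2 : ℝ) • e1) (1 / 8))).toReal ≤
      (Mp e0 (pk k)).toReal := by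
  have h2 := Mp_ge h0 h1 h01 (pk_gt k) (pk_lt k)
  have h3 := Mp_lt_top h0 (pk_gt k) (pk_lt k)
  have h4 := ENNReal.toReal_mono h3.ne h2
  have h5 : 3 / 16 / (pk k + 1) = 3 / 16 * ((k : ℝ) + 2) := by
    unfold pk
    have : (0 : ℝ) < (k : ℝ) + 2 := by positivity
    field_simp
    ring
  rw [ENNReal.toReal_mul, h5, ENNReal.toReal_ofReal (by positivity)] at h4
  exact h4

/-- the inequality for the directions which are orthogonal to the Killing field -/
theorem step1 (h : Simple g e L) (hg : IsMetric g') (hX : ContDiff ℝ 1 X) (hK : IsKilling g X)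
    (hd : ∀ p ∈ sphere (0 : E) 1, ∀ q ∈ sphere (0 : E) 1, gdist g p q ≤ gdist g' p q)
    {e0 e1 : E} (h0 : ‖e0‖ = 1) (h1 : ‖e1‖ = 1) (h01 : inner ℝ e0 e1 = 0) {a b : E → ℝ}
    (hab : Str g g' X a b) (ha : Measurable a) {c C : ℝ} (hc : 0 < c)
    (hC0 : 0 ≤ C) (hca : ∀ x ∈ ball (0 : E) 1, c ≤ a x) (haC : ∀ x ∈ ball (0 : E) 1, a x ≤ C)
    (hbC : ∀ x ∈ ball (0 : E) 1, b x * nX g X x ^ 2 ≤ C)
    (hint : IntegrableOn (fun x => (nX g X x)⁻¹) (ball (0 : E) 1))
    (hpos : ∀ᵐ x ∂(volume.restrict (ball (0 : E) 1)), 0 < nX g X x) :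
    ∫ x in ball (0 : E) 1, dens (g x) * (nX g X x)⁻¹ ≤
      ∫ x in ball (0 : E) 1, dens (g x) * ((nX g X x)⁻¹ * √(a x)) := by
  have hgm := Simple_isMetric h
  have hXc := hX.continuous
  have hmR : Measurable (nX g X) := (continuous_nX hgm hXc).measurable
  have hR0 : ∀ x, 0 ≤ nX g X x := fun x => nX_nonneg x
  set v := (volume (ball ((1 / 2 : ℝ) • e1) (1 / 8))).toReal with hv
  have hv0 : 0 < v := ENNReal.toReal_pos (measure_ball_pos _ _ (by norm_num)).ne'
    measure_ball_lt_top.ne
  set K := C / (2 * √c) * om E with hKdef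
  have hK0 : 0 ≤ K := mul_nonneg (by positivity) om_pos.le
  -- domination
  have hbound : IntegrableOn (fun x => dens (g x) * (1 + (nX g X x)⁻¹)) (ball (0 : E) 1) :=
    int_P hgm hXc hint (measurable_const.add hmR.inv) (C := 1) fun x _ => by
      rw [abs_of_nonneg (add_nonneg zero_le_one (inv_nonneg.2 (hR0 x))), one_mul]
  have hbound2 : IntegrableOn (fun x => √C * (dens (g x) * (1 + (nX g X x)⁻¹)))
      (ball (0 : E) 1) := hbound.const_mul _
  set B := ∫ x in ball (0 : E) 1, dens (g x) * (1 + (nX g X x)⁻¹) with hB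
  set F : ℕ → ℝ := fun k => ∫ x in ball (0 : E) 1, dens (g x) * nX g X x ^ pk k with hF
  set G : ℕ → ℝ := fun k => ∫ x in ball (0 : E) 1, dens (g x) * (nX g X x ^ pk k * √(a x)) with hG
  have hptw : ∀ᵐ x ∂(volume.restrict (ball (0 : E) 1)),
      Tendsto (fun k => nX g X x ^ pk k) atTop (𝓝 (nX g X x)⁻¹) := by
    filter_upwards [hpos] with x hx
    have h2 := (Real.continuousAt_const_rpow (a := nX g X x) (b := -1) hx.ne').tendsto.comp
      tendsto_pk
    rw [Real.rpow_neg_one] at h2
    exact h2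
  have hFlim : Tendsto F atTop (𝓝 (∫ x in ball (0 : E) 1, dens (g x) * (nX g X x)⁻¹)) := by
    refine tendsto_integral_of_dominated_convergence
      (fun x => dens (g x) * (1 + (nX g X x)⁻¹)) (fun k => ?_) hbound (fun k => ?_) ?_
    · exact ((measurable_dens hgm).mul (hmR.pow_const _)).aestronglyMeasurable
    · refine Eventually.of_forall fun x => ?_
      rw [Real.norm_eq_abs, abs_of_nonneg (mul_nonneg (dens_nonneg _) (Real.rpow_nonneg (hR0 x) _))]
      exact mul_le_mul_of_nonneg_left (rpow_le_one_add (hR0 x) (pk_gt k) (pk_lt k)) (dens_nonneg _)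
    · filter_upwards [hptw] with x hx
      exact hx.const_mul _
  have hGlim : Tendsto G atTop
      (𝓝 (∫ x in ball (0 : E) 1, dens (g x) * ((nX g X x)⁻¹ * √(a x)))) := by
    refine tendsto_integral_of_dominated_convergence
      (fun x => √C * (dens (g x) * (1 + (nX g X x)⁻¹))) (fun k => ?_) hbound2 (fun k => ?_) ?_
    · exact ((measurable_dens hgm).mul ((hmR.pow_const _).mul ha.sqrt)).aestronglyMeasurable
    · refine (ae_restrict_iff' measurableSet_ball).2 (Eventually.of_forall fun x hx => ?_)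
      have hRp := Real.rpow_nonneg (hR0 x) (pk k)
      rw [Real.norm_eq_abs, abs_of_nonneg (mul_nonneg (dens_nonneg _)
        (mul_nonneg hRp (Real.sqrt_nonneg _)))]
      have h2 := rpow_le_one_add (hR0 x) (pk_gt k) (pk_lt k)
      have h3 := Real.sqrt_le_sqrt (haC x hx)
      calc dens (g x) * (nX g X x ^ pk k * √(a x))
          ≤ dens (g x) * ((1 + (nX g X x)⁻¹) * √C) := by
            refine mul_le_mul_of_nonneg_left ?_ (dens_nonneg _)
            exact mul_le_mul h2 h3 (Real.sqrt_nonneg _) (hRp.trans h2)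
        _ = _ := by ring
    · filter_upwards [hptw] with x hx
      exact (hx.mul_const _).const_mul _
  have hFB : ∀ k, F k ≤ B := by
    intro k
    refine integral_mono_of_nonneg (Eventually.of_forall fun x =>
      mul_nonneg (dens_nonneg _) (Real.rpow_nonneg (hR0 x) _)) hbound
      (Eventually.of_forall fun x => ?_)
    exact mul_le_mul_of_nonneg_left (rpow_le_one_add (hR0 x) (pk_gt k) (pk_lt k)) (dens_nonneg _)
  have hB0 : 0 ≤ B := integral_nonneg fun x => mul_nonneg (dens_nonneg _)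
    (add_nonneg zero_le_one (inv_nonneg.2 (hR0 x)))
  have hmain : ∀ k : ℕ, F k - G k ≤ K * B / (3 / 16 * v) * (1 / ((k : ℝ) + 2)) := by
    intro k
    have h2 := ineq_p h hg hX hK hd h0 hab (pk_gt k) (pk_lt k) ha hc hC0 hca haC hbC hint
    have h3 := moment_ge h0 h1 h01 k
    set m := (Mp e0 (pk k)).toReal with hm
    have hk : (0 : ℝ) < (k : ℝ) + 2 := by positivity
    have hm0 : 0 < m := lt_of_lt_of_le (by positivity) h3
    have h4 : m * (F k - G k) ≤ K * B := by
      have : K * F k ≤ K * B := mul_le_mul_of_nonneg_left (hFB k) hK0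
      simp only [hF, hG] at this ⊢
      rw [mul_sub]
      linarith
    by_cases hneg : F k - G k ≤ 0
    · exact hneg.trans (by positivity)
    · push Not at hneg
      have h5 : 3 / 16 * ((k : ℝ) + 2) * v * (F k - G k) ≤ K * B :=
        (mul_le_mul_of_nonneg_right h3 hneg.le).trans h4
      have h6 : K * B / (3 / 16 * v) * (1 / ((k : ℝ) + 2)) =
          K * B / (3 / 16 * ((k : ℝ) + 2) * v) := by
        field_simp
      rw [h6, le_div_iff₀ (by positivity)]
      linarith
  have hlim : Tendsto (fun k : ℕ => K * B / (3 / 16 * v) * (1 / ((k : ℝ) + 2))) atTop (𝓝 0) := by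
    have h2 : Tendsto (fun k : ℕ => 1 / ((k : ℝ) + 2)) atTop (𝓝 0) := by
      simp only [one_div]
      exact tendsto_inv_atTop_zero.comp
        (tendsto_atTop_add_const_right _ _ tendsto_natCast_atTop_atTop)
    have := h2.const_mul (K * B / (3 / 16 * v))
    rw [mul_zero] at this
    exact this
  have h2 := le_of_tendsto_of_tendsto (hFlim.sub hGlim) hlim (Eventually.of_forall hmain)
  linarith

end Pool.Agent.H85.KW
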