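import Pool.Agent.H85.KW.Sph

/-!
# Rotation fields
-/

open Set Metric Filter Topology MeasureTheory
open scoped ContDiff RealInnerProductSpace ENNReal

noncomputable section

set_option maxSynthPendingDepth 3

namespace Pool.Agent.H85.KW

open Pool.Agent.W9h56.BE Pool.Agent.W5h72.BR

variable {E : Type*} [NormedAddCommGroup E] [InnerProductSpace ℝ E]

lemma skew_pol {R : E →L[ℝ] E} (hR : ∀ v, inner ℝ (R v) v = 0) (v w : E) :
    inner ℝ (R v) w = -inner ℝ (R w) v := by
  have h1 := hR (v + w)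
  rw [map_add, inner_add_left, inner_add_right, inner_add_right, hR v, hR w] at h1
  linarith

/-- a skew operator dominates two coordinates -/
lemma skew_lower {R : E →L[ℝ] E} (hR : ∀ v, inner ℝ (R v) v = 0) (hR0 : R ≠ 0) :
    ∃ (f0 f1 : E) (c : ℝ), 0 < c ∧ ‖f0‖ = 1 ∧ ‖f1‖ = 1 ∧ inner ℝ f0 f1 = 0 ∧
      ∀ x, c * |inner ℝ f0 x| ≤ ‖R x‖ ∧ c * |inner ℝ f1 x| ≤ ‖R x‖ := by
  obtain ⟨y, hy⟩ : ∃ y, R y ≠ 0 := by
    by_contra hno
    push Not at hno
    exact hR0 (ContinuousLinearMap.ext fun y => by rw [hno y]; rfl)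
  have hy0 : y ≠ 0 := fun h => hy (by rw [h, map_zero])
  have hy2 : R (R y) ≠ 0 := by
    intro h
    have h1 := skew_pol hR (R y) y
    rw [h, inner_zero_left, real_inner_self_eq_norm_sq] at h1
    have h2 : ‖R y‖ = 0 := by
      have : ‖R y‖ ^ 2 = 0 := by linarith
      exact pow_eq_zero_iff two_ne_zero |>.1 this
    exact hy (norm_eq_zero.1 h2)
  have key : ∀ w, w ≠ 0 → R w ≠ 0 → ∀ x, ‖R w‖ / ‖w‖ * |inner ℝ (‖R w‖⁻¹ • R w) x| ≤ ‖R x‖ := by
    intro w hw hRw x
    have k1 : 0 < ‖w‖ := norm_pos_iff.2 hw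
    have k2 : 0 < ‖R w‖ := norm_pos_iff.2 hRw
    rw [inner_smul_left, RCLike.conj_to_real, abs_mul, abs_of_pos (inv_pos.2 k2), skew_pol hR w x,
      abs_neg]
    have k3 : |inner ℝ (R x) w| ≤ ‖R x‖ * ‖w‖ := abs_real_inner_le_norm _ _
    have k4 : ‖R w‖ / ‖w‖ * (‖R w‖⁻¹ * |inner ℝ (R x) w|) = |inner ℝ (R x) w| / ‖w‖ := by
      field_simp
    rw [k4, div_le_iff₀ k1]
    exact k3
  have n1 : 0 < ‖R y‖ := norm_pos_iff.2 hy
  have n2 : 0 < ‖R (R y)‖ := norm_pos_iff.2 hy2
  have n0 : 0 < ‖y‖ := norm_pos_iff.2 hy0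
  refine ⟨‖R y‖⁻¹ • R y, ‖R (R y)‖⁻¹ • R (R y), min (‖R y‖ / ‖y‖) (‖R (R y)‖ / ‖R y‖),
    lt_min (div_pos n1 n0) (div_pos n2 n1), ?_, ?_, ?_, fun x => ⟨?_, ?_⟩⟩
  · rw [norm_smul, norm_inv, norm_norm, inv_mul_cancel₀ n1.ne']
  · rw [norm_smul, norm_inv, norm_norm, inv_mul_cancel₀ n2.ne']
  · rw [inner_smul_left, inner_smul_right, real_inner_comm, hR, mul_zero, mul_zero]
  · exact (mul_le_mul_of_nonneg_right (min_le_left _ _) (abs_nonneg _)).trans (key y hy0 hy x)
  · exact (mul_le_mul_of_nonneg_right (min_le_right _ _) (abs_nonneg _)).trans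
      (key (R y) hy hy2 x)

variable [FiniteDimensional ℝ E] [MeasurableSpace E] [BorelSpace E]

/-- integration along the direction `f0` -/
lemma int_dir {f0 f1 : E} (h0 : ‖f0‖ = 1) (h01 : inner ℝ f0 f1 = 0) {p r : ℝ} (hp : -1 < p)
    {G : ℝ → ℝ≥0∞} (hG : Measurable G) :
    ∫⁻ x in ball (0 : E) r, ENNReal.ofReal (|inner ℝ f0 x| ^ p) * G (inner ℝ f1 x) ≤
      (∫⁻ t in Ioo (-r : ℝ) r, ENNReal.ofReal (|t| ^ p)) *
        ∫⁻ x in ball (0 : E) (r + 1), G (inner ℝ f1 x) := by
  set K := ∫⁻ t in Ioo (-r : ℝ) r, ENNReal.ofReal (|t| ^ p) with hK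
  have hm1 : Measurable fun z : E => ENNReal.ofReal (|inner ℝ f0 z| ^ p) * G (inner ℝ f1 z) :=
    (by fun_prop : Measurable fun z : E => ENNReal.ofReal (|inner ℝ f0 z| ^ p)).mul
      (hG.comp (by fun_prop))
  have hm2 : Measurable fun z : E => K * G (inner ℝ f1 z) :=
    measurable_const.mul (hG.comp (by fun_prop))
  have h2 : ∫⁻ z, indicator (ball (0 : E) r)
      (fun z => ENNReal.ofReal (|inner ℝ f0 z| ^ p) * G (inner ℝ f1 z)) z ≤
      ∫⁻ z, indicator (ball (0 : E) (r + 1)) (fun z => K * G (inner ℝ f1 z)) z := by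
    refine lintegral_le_of_lines (hm1.indicator measurableSet_ball)
      (hm2.indicator measurableSet_ball) h0 fun y => ?_
    have hG1 : ∀ s : ℝ, inner ℝ f1 (y + s • f0) = inner ℝ f1 y := by
      intro s
      rw [inner_add_right, inner_smul_right, real_inner_comm f0 f1, h01]
      ring
    by_cases hex : ∃ s : ℝ, y + s • f0 ∈ ball (0 : E) r
    · obtain ⟨s1, hs1⟩ := hex
      have hs1' : ‖y + s1 • f0‖ < r := by simpa using hs1
      set c := inner ℝ f0 y with hc
      have hin : ∀ s : ℝ, inner ℝ f0 (y + s • f0) = s + c := by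
        intro s
        rw [inner_add_right, inner_smul_right, real_inner_self_eq_norm_sq, h0]
        ring
      set G0 := G (inner ℝ f1 y) with hG0
      calc ∫⁻ s : ℝ, indicator (ball (0 : E) r)
            (fun z => ENNReal.ofReal (|inner ℝ f0 z| ^ p) * G (inner ℝ f1 z)) (y + s • f0)
          ≤ ∫⁻ s : ℝ, indicator (Ioo (-r : ℝ) r) (fun t => ENNReal.ofReal (|t| ^ p)) (s + c) *
              G0 := by
            refine lintegral_mono fun s => ?_
            by_cases hs : y + s • f0 ∈ ball (0 : E) r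
            · have h3 : |s + c| < r := by
                rw [← hin s]
                calc |inner ℝ f0 (y + s • f0)| ≤ ‖f0‖ * ‖y + s • f0‖ := abs_real_inner_le_norm _ _
                  _ < r := by rw [h0, one_mul]; simpa using hs
              rw [indicator_of_mem hs, indicator_of_mem (show s + c ∈ Ioo (-r : ℝ) r from
                abs_lt.1 h3), hin, hG1]
            · rw [indicator_of_notMem hs]
              exact zero_le
        _ = K * G0 := by
            have hm3 : Measurable fun s : ℝ =>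
                indicator (Ioo (-r : ℝ) r) (fun t => ENNReal.ofReal (|t| ^ p)) (s + c) :=
              ((by fun_prop : Measurable fun t : ℝ =>
                ENNReal.ofReal (|t| ^ p)).indicator measurableSet_Ioo).comp
                (measurable_id.add_const c)
            rw [lintegral_mul_const _ hm3, lintegral_add_right_eq_self (fun s => indicator (Ioo (-r : ℝ) r)
              (fun t => ENNReal.ofReal (|t| ^ p)) s) c, lintegral_indicator measurableSet_Ioo]
        _ ≤ ∫⁻ s in Ioo (s1 - 1) (s1 + 1), K * G0 := by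
            rw [setLIntegral_const, Real.volume_Ioo]
            have : ENNReal.ofReal (s1 + 1 - (s1 - 1)) = 2 := by
              rw [show s1 + 1 - (s1 - 1) = 2 by ring]
              simp
            rw [this, mul_two]
            exact le_self_add
        _ = ∫⁻ s : ℝ, indicator (Ioo (s1 - 1) (s1 + 1)) (fun _ => K * G0) s :=
            (lintegral_indicator measurableSet_Ioo _).symm
        _ ≤ ∫⁻ s : ℝ, indicator (ball (0 : E) (r + 1)) (fun z => K * G (inner ℝ f1 z))
              (y + s • f0) := by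
            refine lintegral_mono fun s => ?_
            by_cases hs : s ∈ Ioo (s1 - 1) (s1 + 1)
            · have h3 : y + s • f0 ∈ ball (0 : E) (r + 1) := by
                rw [mem_ball, dist_zero_right]
                have h4 : y + s • f0 = (y + s1 • f0) + (s - s1) • f0 := by
                  rw [sub_smul]
                  abel
                have h5 : ‖(s - s1) • f0‖ < 1 := by
                  rw [norm_smul, h0, mul_one, Real.norm_eq_abs, abs_lt]
                  constructor <;> linarith [hs.1, hs.2]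
                rw [h4]
                calc _ ≤ _ := norm_add_le _ _
                  _ < r + 1 := by linarith
              rw [indicator_of_mem hs, indicator_of_mem h3, hG1]
            · rw [indicator_of_notMem hs]
              exact zero_le
    · have h3 : ∀ s : ℝ, indicator (ball (0 : E) r)
          (fun z => ENNReal.ofReal (|inner ℝ f0 z| ^ p) * G (inner ℝ f1 z)) (y + s • f0) = 0 :=
        fun s => indicator_of_notMem (fun hs => hex ⟨s, hs⟩) _
      simp only [h3, lintegral_zero]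
      exact zero_le
  rw [lintegral_indicator measurableSet_ball, lintegral_indicator measurableSet_ball] at h2
  refine h2.trans (le_of_eq ?_)
  rw [lintegral_const_mul]
  exact hG.comp (by fun_prop)

lemma int_abs_lt_top' {p : ℝ} (hp : -1 < p) {r : ℝ} (hr : 0 < r) :
    ∫⁻ t in Ioo (-r : ℝ) r, ENNReal.ofReal (|t| ^ p) < ⊤ := by
  have h1 : ∫⁻ t in Ioo (0 : ℝ) r, ENNReal.ofReal (|t| ^ p) < ⊤ := by
    rw [setLIntegral_congr_fun (g := fun t => ENNReal.ofReal (t ^ p)) measurableSet_Ioo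
      (fun t ht => by simp only [abs_of_pos ht.1]), int_pos hp hr.le]
    exact ENNReal.ofReal_lt_top
  have h2 : ∫⁻ t in Ioo (-r : ℝ) 0, ENNReal.ofReal (|t| ^ p) =
      ∫⁻ t in Ioo (0 : ℝ) r, ENNReal.ofReal (|t| ^ p) := by
    have h3 := (Measure.measurePreserving_neg (volume : Measure ℝ)).setLIntegral_comp_preimage_emb
      (Homeomorph.neg ℝ).measurableEmbedding (fun t => ENNReal.ofReal (|t| ^ p)) (Ioo (0 : ℝ) r)
    rw [← h3]
    simp
  have h3 : Ioo (-r : ℝ) r ⊆ (Ioo (-r : ℝ) 0 ∪ Ioo (0 : ℝ) r) ∪ {0} := by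
    intro t ht
    rcases lt_trichotomy t 0 with h | h | h
    · exact Or.inl (Or.inl ⟨ht.1, h⟩)
    · exact Or.inr h
    · exact Or.inl (Or.inr ⟨h, ht.2⟩)
  calc ∫⁻ t in Ioo (-r : ℝ) r, ENNReal.ofReal (|t| ^ p)
      ≤ ∫⁻ t in (Ioo (-r : ℝ) 0 ∪ Ioo (0 : ℝ) r) ∪ {0}, ENNReal.ofReal (|t| ^ p) :=
        lintegral_mono_set h3
    _ ≤ ((∫⁻ t in Ioo (-r : ℝ) 0, ENNReal.ofReal (|t| ^ p)) +
        (∫⁻ t in Ioo (0 : ℝ) r, ENNReal.ofReal (|t| ^ p))) + 0 := by
        refine (lintegral_union_le _ _ _).trans (add_le_add (lintegral_union_le _ _ _) ?_)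
        simp
    _ < ⊤ := by
        rw [h2, add_zero]
        exact ENNReal.add_lt_top.2 ⟨h1, h1⟩

/-- the reciprocal length of a rotation field is integrable -/
theorem rot_int {R : E →L[ℝ] E} (hR : ∀ v, inner ℝ (R v) v = 0) (hR0 : R ≠ 0) :
    IntegrableOn (fun x => ‖R x‖⁻¹) (closedBall (0 : E) 1) := by
  obtain ⟨f0, f1, c, hc, h0, h1, h01, hlow⟩ := skew_lower hR hR0
  have hmR : Measurable fun x => ‖R x‖⁻¹ := R.continuous.norm.measurable.inv
  have hm1 : Measurable fun t : ℝ => ENNReal.ofReal (|t| ^ (-(1 / 2) : ℝ)) := by fun_prop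
  have key : ∀ x, ENNReal.ofReal (‖R x‖⁻¹) ≤ ENNReal.ofReal c⁻¹ *
      (ENNReal.ofReal (|inner ℝ f0 x| ^ (-(1 / 2) : ℝ)) *
        ENNReal.ofReal (|inner ℝ f1 x| ^ (-(1 / 2) : ℝ))) ∨ inner ℝ f0 x = 0 ∨
        inner ℝ f1 x = 0 := by
    intro x
    by_cases k0 : inner ℝ f0 x = 0
    · exact Or.inr (Or.inl k0)
    by_cases k1 : inner ℝ f1 x = 0
    · exact Or.inr (Or.inr k1)
    left
    have a0 : 0 < |inner ℝ f0 x| := abs_pos.2 k0
    have a1 : 0 < |inner ℝ f1 x| := abs_pos.2 k1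
    obtain ⟨l0, l1⟩ := hlow x
    have hRx : 0 < ‖R x‖ := lt_of_lt_of_le (mul_pos hc a0) l0
    rw [← ENNReal.ofReal_mul (by positivity), ← ENNReal.ofReal_mul (by positivity)]
    refine ENNReal.ofReal_le_ofReal ?_
    have e0 : |inner ℝ f0 x| ^ (-(1 / 2) : ℝ) = (√|inner ℝ f0 x|)⁻¹ := by
      rw [Real.rpow_neg a0.le, Real.sqrt_eq_rpow]
    have e1 : |inner ℝ f1 x| ^ (-(1 / 2) : ℝ) = (√|inner ℝ f1 x|)⁻¹ := by
      rw [Real.rpow_neg a1.le, Real.sqrt_eq_rpow]
    rw [e0, e1, ← mul_inv, ← mul_inv]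
    refine inv_anti₀ (by positivity) ?_
    have e2 : c * (√|inner ℝ f0 x| * √|inner ℝ f1 x|) =
        √(c * |inner ℝ f0 x|) * √(c * |inner ℝ f1 x|) := by
      rw [Real.sqrt_mul hc.le, Real.sqrt_mul hc.le]
      have := Real.mul_self_sqrt hc.le
      linear_combination (-(√|inner ℝ f0 x| * √|inner ℝ f1 x|)) * this
    rw [e2]
    calc √(c * |inner ℝ f0 x|) * √(c * |inner ℝ f1 x|) ≤ √‖R x‖ * √‖R x‖ :=
          mul_le_mul (Real.sqrt_le_sqrt l0) (Real.sqrt_le_sqrt l1) (Real.sqrt_nonneg _)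
            (Real.sqrt_nonneg _)
      _ = ‖R x‖ := Real.mul_self_sqrt (norm_nonneg _)
  have hnull : ∀ f : E, ‖f‖ = 1 → ∀ᵐ x : E, inner ℝ f x ≠ 0 := by
    intro f hf
    have hker : LinearMap.ker (innerSL ℝ f : E →L[ℝ] ℝ).toLinearMap ≠ ⊤ := by
      intro h
      have h2 : f ∈ LinearMap.ker (innerSL ℝ f : E →L[ℝ] ℝ).toLinearMap := by
        rw [h]; trivial
      have h3 : inner ℝ f f = (0 : ℝ) := by simpa using h2
      rw [real_inner_self_eq_norm_sq, hf] at h3
      norm_num at h3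
    have h4 := Measure.addHaar_submodule (volume : Measure E) _ hker
    rw [ae_iff]
    refine measure_mono_null (fun x hx => ?_) h4
    simpa using hx
  refine ⟨hmR.aestronglyMeasurable, ?_⟩
  rw [hasFiniteIntegral_iff_enorm]
  have e3 : ∀ x, ‖‖R x‖⁻¹‖ₑ = ENNReal.ofReal (‖R x‖⁻¹) := fun x => by
    rw [Real.enorm_eq_ofReal (inv_nonneg.2 (norm_nonneg _))]
  simp only [e3]
  calc ∫⁻ x in closedBall (0 : E) 1, ENNReal.ofReal (‖R x‖⁻¹)
      ≤ ∫⁻ x in closedBall (0 : E) 1, ENNReal.ofReal c⁻¹ *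
      (ENNReal.ofReal (|inner ℝ f0 x| ^ (-(1 / 2) : ℝ)) *
        ENNReal.ofReal (|inner ℝ f1 x| ^ (-(1 / 2) : ℝ))) := by
        refine lintegral_mono_ae (ae_restrict_of_ae ?_)
        filter_upwards [hnull f0 h0, hnull f1 h1] with x hx0 hx1
        rcases key x with h | h | h
        · exact h
        · exact absurd h hx0
        · exact absurd h hx1
    _ ≤ ∫⁻ x in ball (0 : E) 2, ENNReal.ofReal c⁻¹ *
      (ENNReal.ofReal (|inner ℝ f0 x| ^ (-(1 / 2) : ℝ)) *
        ENNReal.ofReal (|inner ℝ f1 x| ^ (-(1 / 2) : ℝ))) :=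
        lintegral_mono_set (closedBall_subset_ball (by norm_num))
    _ = ENNReal.ofReal c⁻¹ * ∫⁻ x in ball (0 : E) 2,
      (ENNReal.ofReal (|inner ℝ f0 x| ^ (-(1 / 2) : ℝ)) *
        ENNReal.ofReal (|inner ℝ f1 x| ^ (-(1 / 2) : ℝ))) :=
        lintegral_const_mul' _ _ ENNReal.ofReal_ne_top
    _ < ⊤ := by
        refine ENNReal.mul_lt_top ENNReal.ofReal_lt_top ?_
        have hp : (-1 : ℝ) < -(1 / 2) := by norm_num
        refine (int_dir h0 h01 (r := 2) hp hm1).trans_lt ?_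
        refine ENNReal.mul_lt_top (int_abs_lt_top' hp (by norm_num)) ?_
        have h10 : inner ℝ f1 f0 = 0 := by rw [real_inner_comm]; exact h01
        have h5 := int_dir (E := E) h1 h10 (p := -(1 / 2)) (r := 2 + 1) hp
          (G := fun _ => 1) measurable_const
        simp only [mul_one] at h5
        refine h5.trans_lt (ENNReal.mul_lt_top (int_abs_lt_top' hp (by norm_num)) ?_)
        rw [setLIntegral_const, one_mul]
        exact measure_ball_lt_top

theorem rot_ne {R : E →L[ℝ] E} (hR0 : R ≠ 0) : ∀ᵐ x : E, R x ≠ 0 := by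
  have hker : LinearMap.ker R.toLinearMap ≠ ⊤ := by
    intro h
    apply hR0
    ext y
    have h2 : y ∈ LinearMap.ker R.toLinearMap := by rw [h]; trivial
    simpa using h2
  have h4 := Measure.addHaar_submodule (volume : Measure E) _ hker
  rw [ae_iff]
  refine measure_mono_null (fun x hx => ?_) h4
  simpa using hx

end Pool.Agent.H85.KW
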