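import Pool.Agent.H85.KW.Fin
import Pool.Agent.H85.KW.Rot

/-!
# Boundary rigidity for metrics with a common Killing field
-/

open Set Metric Filter Topology MeasureTheory
open scoped ContDiff RealInnerProductSpace ENNReal

noncomputable section

set_option maxSynthPendingDepth 3

namespace Pool.Agent.H85.KW

open Pool.Agent.W9h56.BE Pool.Agent.W5h72.BR

variable {E : Type*} [NormedAddCommGroup E] [InnerProductSpace ℝ E]

/-- at every point of `M` the form `g'` is a linear combination of `g` and the square of the form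
`g(X, ·)` (the coefficients may depend on the point) -/
def InClass (g g' : E → E →L[ℝ] E →L[ℝ] ℝ) (X : E → E) : Prop :=
  ∀ x ∈ closedBall (0 : E) 1, ∃ a b : ℝ, ∀ v w,
    g' x v w = a * g x v w + b * (g x (X x) v * g x (X x) w)

variable [FiniteDimensional ℝ E] [MeasurableSpace E] [BorelSpace E]

theorem main (hn : 3 ≤ Module.finrank ℝ E) {g g' : E → E →L[ℝ] E →L[ℝ] ℝ} (hg : IsSimpleM g)
    (hg' : IsSimpleM g') (hd : BdryLE g g') (hd' : BdryLE g' g) {X : E → E}
    (hX : ContDiff ℝ 1 X) (hK : IsKilling g X) (hK' : IsKilling g' X)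
    (hne : ∀ᵐ x ∂(volume.restrict (closedBall (0 : E) 1)), X x ≠ 0)
    (hint : IntegrableOn (fun x => ‖X x‖⁻¹) (closedBall (0 : E) 1))
    (hcl : InClass g g' X) : ∀ x ∈ closedBall (0 : E) 1, g' x = g x := by
  obtain ⟨e, L, h⟩ := hg
  obtain ⟨e', L', h'⟩ := hg'
  refine rigid hn h h' (fun p hp q hq => ?_) hX hK hK' hint
    (ae_restrict_of_ae_restrict_of_subset ball_subset_closedBall hne) hcl
  have h1 := hd p hp q hq
  have h2 := hd' p hp q hq
  rw [gd_eq, gd_eq] at h1 h2
  exact le_antisymm h1 h2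

theorem main_rot (hn : 3 ≤ Module.finrank ℝ E) {g g' : E → E →L[ℝ] E →L[ℝ] ℝ} (hg : IsSimpleM g)
    (hg' : IsSimpleM g') (hd : BdryLE g g') (hd' : BdryLE g' g) {R : E →L[ℝ] E}
    (hR : ∀ v, inner ℝ (R v) v = 0) (hR0 : R ≠ 0) (hK : IsKilling g R) (hK' : IsKilling g' R)
    (hcl : InClass g g' R) : ∀ x ∈ closedBall (0 : E) 1, g' x = g x :=
  main hn hg hg' hd hd' R.contDiff hK hK' (ae_restrict_of_ae (rot_ne hR0)) (rot_int hR hR0) hcl

end Pool.Agent.H85.KW
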