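import Pool.Agent.H85.KW.Bas

/-!
# The inequality for the directions orthogonal to the Killing field
-/

open Set Metric Filter Topology MeasureTheory
open scoped ContDiff RealInnerProductSpace ENNReal

noncomputable section

set_option maxSynthPendingDepth 3

namespace Pool.Agent.H85.KW

open Pool.Agent.W9h56.BE Pool.Agent.W5h72.BR

variable {E : Type*} [NormedAddCommGroup E] [InnerProductSpace ℝ E] [FiniteDimensional ℝ E]
  [MeasurableSpace E] [BorelSpace E]

variable {g g' : E → E →L[ℝ] E →L[ℝ] ℝ} {e L e' L' : E → E → E} {X : E → E}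

lemma real_of_lint {f k : E → ℝ} (hf : IntegrableOn f (ball (0 : E) 1))
    (hk : IntegrableOn k (ball (0 : E) 1)) (hf0 : ∀ x ∈ ball (0 : E) 1, 0 ≤ f x)
    (hk0 : ∀ x ∈ ball (0 : E) 1, 0 ≤ k x)
    (h : ∫⁻ x in ball (0 : E) 1, ENNReal.ofReal (f x) ≤
      ∫⁻ x in ball (0 : E) 1, ENNReal.ofReal (k x)) :
    ∫ x in ball (0 : E) 1, f x ≤ ∫ x in ball (0 : E) 1, k x := by
  rw [← ofReal_integral_eq_lintegral_ofReal hf
    ((ae_restrict_iff' measurableSet_ball).2 (Eventually.of_forall hf0)),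
    ← ofReal_integral_eq_lintegral_ofReal hk
    ((ae_restrict_iff' measurableSet_ball).2 (Eventually.of_forall hk0)),
    ENNReal.ofReal_le_ofReal_iff (setIntegral_nonneg measurableSet_ball hk0)] at h
  exact h

lemma rpow_le_one_add {R p : ℝ} (hR : 0 ≤ R) (hp : -1 < p) (hp0 : p < 0) :
    R ^ p ≤ 1 + R⁻¹ := by
  rcases hR.eq_or_lt with rfl | hR
  · rw [Real.zero_rpow hp0.ne]
    simp
  have h1 : 0 < R⁻¹ := inv_pos.2 hR
  rcases le_total 1 R with h | h
  · have := Real.rpow_le_one_of_one_le_of_nonpos h hp0.le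
    linarith
  · have := Real.rpow_le_rpow_of_exponent_ge hR h hp.le
    rw [Real.rpow_neg_one] at this
    linarith

lemma sqrt_le_lin {a b R s C c : ℝ} (hc : 0 < c) (hca : c ≤ a) (hC : b * R ^ 2 ≤ C) (hC0 : 0 ≤ C) :
    √(a + b * (R * s) ^ 2) ≤ √a + C / (2 * √c) * s ^ 2 := by
  have h1 : 0 < √c := Real.sqrt_pos.2 hc
  have h2 : √c ≤ √a := Real.sqrt_le_sqrt hca
  refine Real.sqrt_le_iff.2 ⟨by positivity, ?_⟩
  have h3 : √a ^ 2 = a := Real.sq_sqrt (hc.le.trans hca)
  have h4 : C * s ^ 2 ≤ 2 * √a * (C / (2 * √c) * s ^ 2) := by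
    have h5 : 2 * √a * (C / (2 * √c) * s ^ 2) = (√a / √c) * (C * s ^ 2) := by
      field_simp
    rw [h5]
    have h6 : 1 ≤ √a / √c := (one_le_div h1).2 h2
    have h7 : 0 ≤ C * s ^ 2 := by positivity
    nlinarith
  have h5 : b * (R * s) ^ 2 ≤ C * s ^ 2 := by
    rw [mul_pow]
    nlinarith [sq_nonneg s]
  have h6 : (√a + C / (2 * √c) * s ^ 2) ^ 2 = √a ^ 2 + 2 * √a * (C / (2 * √c) * s ^ 2) +
    (C / (2 * √c) * s ^ 2) ^ 2 := by ring
  rw [h6, h3]
  have h7 := sq_nonneg (C / (2 * √c) * s ^ 2)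
  linarith

section

variable (h : Simple g e L) (hg : IsMetric g') (hX : ContDiff ℝ 1 X) (hK : IsKilling g X)
    (hd : ∀ p ∈ sphere (0 : E) 1, ∀ q ∈ sphere (0 : E) 1, gdist g p q ≤ gdist g' p q)
    {e0 : E} (h0 : ‖e0‖ = 1) {a b : E → ℝ}
    (hab : Str g g' X a b)

lemma measurable_dens (hg : IsMetric g) : Measurable fun x => dens (g x) :=
  (continuous_dens hg.cont).measurable

omit [MeasurableSpace E] [BorelSpace E] in
lemma dens_bdd (hg : IsMetric g) :
    ∃ B, ∀ x ∈ ball (0 : E) 1, dens (g x) ≤ B := by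
  obtain ⟨B, hB⟩ := (isCompact_closedBall (0 : E) 1).bddAbove_image
    (continuous_dens hg.cont).continuousOn
  exact ⟨B, fun x hx => hB (mem_image_of_mem _ (ball_subset_closedBall hx))⟩

/-- the weight of order `p` is integrable -/
lemma int_P (hg : IsMetric g) (hX : Continuous X)
    (hint : IntegrableOn (fun x => (nX g X x)⁻¹) (ball (0 : E) 1)) {F : E → ℝ} (hF : Measurable F)
    {C : ℝ} (hC : ∀ x ∈ ball (0 : E) 1, |F x| ≤ C * (1 + (nX g X x)⁻¹)) :
    IntegrableOn (fun x => dens (g x) * F x) (ball (0 : E) 1) := by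
  obtain ⟨B, hB⟩ := dens_bdd hg
  have h1 : IntegrableOn (fun x => B * C * (1 + (nX g X x)⁻¹)) (ball (0 : E) 1) := by
    refine Integrable.const_mul ?_ _
    exact (integrableOn_const (C := (1 : ℝ)) measure_ball_lt_top.ne).add hint
  refine h1.mono' ((measurable_dens hg).mul hF).aestronglyMeasurable ?_
  refine (ae_restrict_iff' measurableSet_ball).2 (Eventually.of_forall fun x hx => ?_)
  rw [Real.norm_eq_abs, abs_mul, abs_of_nonneg (dens_nonneg _), mul_assoc]
  exact mul_le_mul (hB x hx) (hC x hx) (abs_nonneg _) ((dens_nonneg _).trans (hB x hx))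

include h hg hX hK hd h0 hab

/-- the inequality for the weight of order `p` -/
lemma ineq_p {p : ℝ} (hp : -1 < p) (hp0 : p < 0) (ha : Measurable a) {c C : ℝ} (hc : 0 < c)
    (hC0 : 0 ≤ C) (hca : ∀ x ∈ ball (0 : E) 1, c ≤ a x) (haC : ∀ x ∈ ball (0 : E) 1, a x ≤ C)
    (hbC : ∀ x ∈ ball (0 : E) 1, b x * nX g X x ^ 2 ≤ C)
    (hint : IntegrableOn (fun x => (nX g X x)⁻¹) (ball (0 : E) 1)) :
    (Mp e0 p).toReal * ∫ x in ball (0 : E) 1, dens (g x) * nX g X x ^ p ≤
      (Mp e0 p).toReal * (∫ x in ball (0 : E) 1, dens (g x) * (nX g X x ^ p * √(a x))) +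
        C / (2 * √c) * om E * ∫ x in ball (0 : E) 1, dens (g x) * nX g X x ^ p := by
  have hgm := Simple_isMetric h
  have hXc := hX.continuous
  have hmR : Measurable (nX g X) := (continuous_nX hgm hXc).measurable
  set K := C / (2 * √c) with hK'
  have hK0 : 0 ≤ K := by positivity
  have hM : Mp e0 p < ⊤ := Mp_lt_top h0 hp hp0
  obtain ⟨m, hm⟩ : ∃ m, m = (Mp e0 p).toReal := ⟨_, rfl⟩
  have hm0 : 0 ≤ m := hm ▸ ENNReal.toReal_nonneg
  have hMm : Mp e0 p = ENNReal.ofReal m := by rw [hm, ENNReal.ofReal_toReal hM.ne]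
  have hW : Measurable fun s : ℝ => ENNReal.ofReal (|s| ^ p) := by fun_prop
  have h1 := base h hg hX hK hd hW h0 hab
  have hR0 : ∀ x, 0 ≤ nX g X x := fun x => nX_nonneg x
  have hWm : ∀ x z, ENNReal.ofReal (|nX g X x * inner ℝ e0 (un z)| ^ p) =
      ENNReal.ofReal (nX g X x ^ p) * ENNReal.ofReal (|inner ℝ e0 (un z)| ^ p) := by
    intro x z
    rw [abs_mul, abs_of_nonneg (hR0 x), Real.mul_rpow (hR0 x) (abs_nonneg _),
      ENNReal.ofReal_mul (Real.rpow_nonneg (hR0 x) _)]
  have hsm : Measurable fun z : E => ENNReal.ofReal (|inner ℝ e0 (un z)| ^ p) :=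
    ((measurable_sig e0).norm.pow_const p).ennreal_ofReal
  -- the left hand side
  have e1 : ∫⁻ x in ball (0 : E) 1, ENNReal.ofReal (dens (g x)) *
        ∫⁻ z in S0, ENNReal.ofReal (|nX g X x * inner ℝ e0 (un z)| ^ p) =
      ∫⁻ x in ball (0 : E) 1, ENNReal.ofReal (m * (dens (g x) * nX g X x ^ p)) := by
    refine lintegral_congr fun x => ?_
    simp only [hWm]
    rw [lintegral_const_mul _ hsm]
    change _ * (_ * Mp e0 p) = _
    rw [hMm, ← ENNReal.ofReal_mul (Real.rpow_nonneg (hR0 x) _), ← ENNReal.ofReal_mul (dens_nonneg _)]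
    congr 1
    ring
  have e2 : ∫⁻ x in ball (0 : E) 1, ENNReal.ofReal (dens (g x)) *
        ∫⁻ z in S0, ENNReal.ofReal (|nX g X x * inner ℝ e0 (un z)| ^ p) *
          ENNReal.ofReal √(a x + b x * (nX g X x * inner ℝ e0 (un z)) ^ 2) ≤
      ∫⁻ x in ball (0 : E) 1, ENNReal.ofReal (m * (dens (g x) * (nX g X x ^ p * √(a x))) +
        K * om E * (dens (g x) * nX g X x ^ p)) := by
    refine setLIntegral_mono' measurableSet_ball fun x hx => ?_
    have hRp : 0 ≤ nX g X x ^ p := Real.rpow_nonneg (hR0 x) _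
    have k1 : ∀ z : E, ENNReal.ofReal (|nX g X x * inner ℝ e0 (un z)| ^ p) *
        ENNReal.ofReal √(a x + b x * (nX g X x * inner ℝ e0 (un z)) ^ 2) ≤
        ENNReal.ofReal (nX g X x ^ p * √(a x)) * ENNReal.ofReal (|inner ℝ e0 (un z)| ^ p) +
          ENNReal.ofReal (nX g X x ^ p * K) := by
      intro z
      set s := inner ℝ e0 (un z) with hs
      have hs1 : |s| ≤ 1 := sig_le h0 z
      have k2 : √(a x + b x * (nX g X x * s) ^ 2) ≤ √(a x) + K * s ^ 2 :=
        sqrt_le_lin hc (hca x hx) (hbC x hx) hC0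
      have k3 : |s| ^ p * s ^ 2 ≤ 1 := by
        rcases (abs_nonneg s).eq_or_lt with h3 | h3
        · have : s = 0 := abs_eq_zero.1 h3.symm
          rw [this]
          simp
        · have h4 : s ^ 2 = |s| ^ (2 : ℝ) := by
            rw [Real.rpow_two, sq_abs]
          rw [h4, ← Real.rpow_add h3]
          exact Real.rpow_le_one (abs_nonneg s) hs1 (by linarith)
      rw [hWm, mul_assoc, ← ENNReal.ofReal_mul (by positivity), ← ENNReal.ofReal_mul hRp,
        ← ENNReal.ofReal_mul (by positivity), ← ENNReal.ofReal_add (by positivity) (by positivity)]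
      refine ENNReal.ofReal_le_ofReal ?_
      have hsp : 0 ≤ |s| ^ p := Real.rpow_nonneg (abs_nonneg s) _
      have k4 : |s| ^ p * √(a x + b x * (nX g X x * s) ^ 2) ≤ |s| ^ p * √(a x) + K := by
        calc _ ≤ |s| ^ p * (√(a x) + K * s ^ 2) := mul_le_mul_of_nonneg_left k2 hsp
          _ = |s| ^ p * √(a x) + K * (|s| ^ p * s ^ 2) := by ring
          _ ≤ _ := by nlinarith
      calc _ ≤ nX g X x ^ p * (|s| ^ p * √(a x) + K) := mul_le_mul_of_nonneg_left k4 hRp
        _ = _ := by ring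
    calc ENNReal.ofReal (dens (g x)) * ∫⁻ z in S0,
          ENNReal.ofReal (|nX g X x * inner ℝ e0 (un z)| ^ p) *
            ENNReal.ofReal √(a x + b x * (nX g X x * inner ℝ e0 (un z)) ^ 2)
        ≤ ENNReal.ofReal (dens (g x)) * ∫⁻ z in S0,
          (ENNReal.ofReal (nX g X x ^ p * √(a x)) * ENNReal.ofReal (|inner ℝ e0 (un z)| ^ p) +
          ENNReal.ofReal (nX g X x ^ p * K)) := mul_le_mul_right (lintegral_mono k1) _
      _ ≤ ENNReal.ofReal (dens (g x)) * (ENNReal.ofReal (nX g X x ^ p * √(a x)) *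
          ENNReal.ofReal m + ENNReal.ofReal (nX g X x ^ p * K) * ENNReal.ofReal (om E)) := by
          refine mul_le_mul_right ?_ _
          rw [lintegral_add_right _ measurable_const, lintegral_const_mul _ hsm, setLIntegral_const]
          change _ * Mp e0 p + _ ≤ _
          rw [hMm]
          refine add_le_add le_rfl (mul_le_mul_right ?_ _)
          rw [om, Measure.real, ENNReal.ofReal_toReal measure_ball_lt_top.ne]
          exact measure_mono sdiff_subset
      _ = _ := by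
          have := om_pos (E := E)
          rw [← ENNReal.ofReal_mul (by positivity), ← ENNReal.ofReal_mul (by positivity),
            ← ENNReal.ofReal_add (by positivity) (by positivity),
            ← ENNReal.ofReal_mul (dens_nonneg _)]
          congr 1
          ring
  rw [e1] at h1
  have h2 := h1.trans e2
  have i1 : IntegrableOn (fun x => dens (g x) * nX g X x ^ p) (ball (0 : E) 1) := by
    refine int_P hgm hXc hint (hmR.pow_const p) (C := 1) fun x _ => ?_
    rw [abs_of_nonneg (Real.rpow_nonneg (hR0 x) _), one_mul]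
    exact rpow_le_one_add (hR0 x) hp hp0
  have i2 : IntegrableOn (fun x => dens (g x) * (nX g X x ^ p * √(a x))) (ball (0 : E) 1) := by
    refine int_P hgm hXc hint ((hmR.pow_const p).mul ha.sqrt) (C := √C) fun x hx => ?_
    rw [abs_of_nonneg (mul_nonneg (Real.rpow_nonneg (hR0 x) _) (Real.sqrt_nonneg _)), mul_comm]
    exact mul_le_mul (Real.sqrt_le_sqrt (haC x hx)) (rpow_le_one_add (hR0 x) hp hp0)
      (Real.rpow_nonneg (hR0 x) _) (Real.sqrt_nonneg _)
  have h3 := real_of_lint (i1.const_mul m) ((i2.const_mul m).add (i1.const_mul (K * om E)))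
    (fun x _ => mul_nonneg hm0 (mul_nonneg (dens_nonneg _) (Real.rpow_nonneg (hR0 x) _)))
    (fun x _ => add_nonneg (mul_nonneg hm0 (mul_nonneg (dens_nonneg _)
      (mul_nonneg (Real.rpow_nonneg (hR0 x) _) (Real.sqrt_nonneg _))))
      (mul_nonneg (mul_nonneg hK0 om_pos.le)
        (mul_nonneg (dens_nonneg _) (Real.rpow_nonneg (hR0 x) _)))) h2
  rw [integral_const_mul] at h3
  have h4 : ∫ x in ball (0 : E) 1, ((fun x => m * (dens (g x) * (nX g X x ^ p * √(a x)))) +
      fun x => K * om E * (dens (g x) * nX g X x ^ p)) x =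
      m * (∫ x in ball (0 : E) 1, dens (g x) * (nX g X x ^ p * √(a x))) +
        K * om E * ∫ x in ball (0 : E) 1, dens (g x) * nX g X x ^ p := by
    rw [integral_add' (i2.const_mul m) (i1.const_mul (K * om E)), integral_const_mul,
      integral_const_mul]
  rw [h4, hm] at h3
  exact h3

end

end Pool.Agent.H85.KW
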