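import Pool.Agent.H85.KW.Wt

/-!
# Spherical averages of functions of one coordinate
-/

open Set Metric Filter Topology MeasureTheory
open scoped ContDiff RealInnerProductSpace ENNReal

noncomputable section

set_option maxSynthPendingDepth 3

namespace Pool.Agent.H85.KW

open Pool.Agent.W9h56.BE Pool.Agent.W5h72.BR

variable {E : Type*} [NormedAddCommGroup E] [InnerProductSpace ℝ E] [FiniteDimensional ℝ E]
  [MeasurableSpace E] [BorelSpace E]

lemma sph_isometry (U : E ≃ₗᵢ[ℝ] E) (v : E) (Φ : ℝ → ℝ≥0∞) :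
    ∫⁻ z in S0, Φ (inner ℝ (U v) (un z)) = ∫⁻ z in S0, Φ (inner ℝ v (un z)) := by
  have h1 : MeasurePreserving U (volume : Measure E) volume := U.measurePreserving
  have h2 : U ⁻¹' (S0 : Set E) = S0 := by
    ext y
    simp [S0]
  rw [← h1.setLIntegral_comp_preimage_emb U.toHomeomorph.measurableEmbedding, h2]
  refine lintegral_congr fun y => ?_
  have h3 : un (U y) = U (un y) := by simp [un]
  rw [h3, LinearIsometryEquiv.inner_map_map]

/-- the integral of a function of one coordinate does not depend on the direction -/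
lemma sph_eq {v w : E} (h : ‖v‖ = ‖w‖) (Φ : ℝ → ℝ≥0∞) :
    ∫⁻ z in S0, Φ (inner ℝ v (un z)) = ∫⁻ z in S0, Φ (inner ℝ w (un z)) := by
  have h1 := Submodule.reflection_sub h
  rw [← h1]
  exact (sph_isometry _ v Φ).symm

/-- the moments -/
def Mp (e0 : E) (p : ℝ) : ℝ≥0∞ := ∫⁻ z in S0, ENNReal.ofReal (|inner ℝ e0 (un z)| ^ p)

lemma measurable_sig (e0 : E) : Measurable fun z : E => inner ℝ e0 (un z) :=
  measurable_const.inner measurable_un

omit [FiniteDimensional ℝ E] [MeasurableSpace E] [BorelSpace E] in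
lemma sig_le {e0 : E} (h0 : ‖e0‖ = 1) (z : E) : |inner ℝ e0 (un z)| ≤ 1 := by
  have h1 : ‖un z‖ ≤ 1 := norm_un_le z
  calc |inner ℝ e0 (un z)| ≤ ‖e0‖ * ‖un z‖ := abs_real_inner_le_norm _ _
    _ ≤ 1 := by rw [h0, one_mul]; exact h1

omit [FiniteDimensional ℝ E] [MeasurableSpace E] [BorelSpace E] in
lemma sig_eq (e0 z : E) : |inner ℝ e0 (un z)| = |inner ℝ e0 z| / ‖z‖ := by
  rw [un, inner_smul_right, abs_mul, abs_inv, abs_norm, div_eq_inv_mul]

/-! ### one-dimensional integrals -/

lemma int_pos {p : ℝ} (hp : -1 < p) {δ : ℝ} (hδ : 0 ≤ δ) :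
    ∫⁻ t in Ioo (0 : ℝ) δ, ENNReal.ofReal (t ^ p) = ENNReal.ofReal (δ ^ (p + 1) / (p + 1)) := by
  have h1 : IntegrableOn (fun t : ℝ => t ^ p) (Ioo 0 δ) := by
    rw [← integrableOn_Ioc_iff_integrableOn_Ioo]
    exact (intervalIntegrable_iff_integrableOn_Ioc_of_le hδ).1
      (intervalIntegral.intervalIntegrable_rpow' hp)
  rw [← ofReal_integral_eq_lintegral_ofReal h1]
  · congr 1
    rw [← integral_Ioc_eq_integral_Ioo, ← intervalIntegral.integral_of_le hδ,
      integral_rpow (Or.inl hp), Real.zero_rpow (by linarith), sub_zero]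
  · exact (ae_restrict_iff' measurableSet_Ioo).2
      (Eventually.of_forall fun t ht => Real.rpow_nonneg ht.1.le p)

lemma int_abs_lt_top {p : ℝ} (hp : -1 < p) :
    ∫⁻ t in Ioo (-1 : ℝ) 1, ENNReal.ofReal (|t| ^ p) < ⊤ := by
  have h1 : ∫⁻ t in Ioo (0 : ℝ) 1, ENNReal.ofReal (|t| ^ p) < ⊤ := by
    rw [setLIntegral_congr_fun (g := fun t => ENNReal.ofReal (t ^ p)) measurableSet_Ioo
      (fun t ht => by simp only [abs_of_pos ht.1]), int_pos hp zero_le_one]
    exact ENNReal.ofReal_lt_top
  have h2 : ∫⁻ t in Ioo (-1 : ℝ) 0, ENNReal.ofReal (|t| ^ p) =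
      ∫⁻ t in Ioo (0 : ℝ) 1, ENNReal.ofReal (|t| ^ p) := by
    have h3 := (Measure.measurePreserving_neg (volume : Measure ℝ)).setLIntegral_comp_preimage_emb
      (Homeomorph.neg ℝ).measurableEmbedding (fun t => ENNReal.ofReal (|t| ^ p)) (Ioo (0 : ℝ) 1)
    rw [← h3]
    simp
  have h3 : Ioo (-1 : ℝ) 1 ⊆ (Ioo (-1 : ℝ) 0 ∪ Ioo (0 : ℝ) 1) ∪ {0} := by
    intro t ht
    rcases lt_trichotomy t 0 with h | h | h
    · exact Or.inl (Or.inl ⟨ht.1, h⟩)
    · exact Or.inr h
    · exact Or.inl (Or.inr ⟨h, ht.2⟩)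
  calc ∫⁻ t in Ioo (-1 : ℝ) 1, ENNReal.ofReal (|t| ^ p)
      ≤ ∫⁻ t in (Ioo (-1 : ℝ) 0 ∪ Ioo (0 : ℝ) 1) ∪ {0}, ENNReal.ofReal (|t| ^ p) :=
        lintegral_mono_set h3
    _ ≤ ((∫⁻ t in Ioo (-1 : ℝ) 0, ENNReal.ofReal (|t| ^ p)) +
        (∫⁻ t in Ioo (0 : ℝ) 1, ENNReal.ofReal (|t| ^ p))) + 0 := by
        refine (lintegral_union_le _ _ _).trans (add_le_add (lintegral_union_le _ _ _) ?_)
        simp
    _ < ⊤ := by
        rw [h2, add_zero]
        exact ENNReal.add_lt_top.2 ⟨h1, h1⟩

/-! ### the moments of order between `-1` and `0` -/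

lemma Mp_lt_top {e0 : E} (h0 : ‖e0‖ = 1) {p : ℝ} (hp : -1 < p) (hp0 : p < 0) : Mp e0 p < ⊤ := by
  set K := ∫⁻ t in Ioo (-1 : ℝ) 1, ENNReal.ofReal (|t| ^ p) with hK
  have hK1 : K < ⊤ := int_abs_lt_top hp
  have hm1 : Measurable fun z : E => ENNReal.ofReal (|inner ℝ e0 z| ^ p) := by fun_prop
  have h1 : Mp e0 p ≤ ∫⁻ z, indicator (ball (0 : E) 1)
      (fun z => ENNReal.ofReal (|inner ℝ e0 z| ^ p)) z := by
    rw [lintegral_indicator measurableSet_ball, Mp]
    refine (setLIntegral_mono' measurableSet_S0 fun z hz => ENNReal.ofReal_le_ofReal ?_).trans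
      (lintegral_mono_set (μ := (volume : Measure E)) sdiff_subset)
    rw [sig_eq]
    have hz1 : ‖z‖ < 1 := by simpa using hz.1
    have hz0 : 0 < ‖z‖ := norm_pos_iff.2 fun h => hz.2 h
    by_cases hc : inner ℝ e0 z = 0
    · rw [hc]
      simp
    · refine Real.rpow_le_rpow_of_nonpos (abs_pos.2 hc) ?_ hp0.le
      rw [le_div_iff₀ hz0]
      nlinarith [abs_nonneg (inner ℝ e0 z)]
  have h2 : ∫⁻ z, indicator (ball (0 : E) 1) (fun z => ENNReal.ofReal (|inner ℝ e0 z| ^ p)) z ≤
      ∫⁻ z, indicator (ball (0 : E) 2) (fun _ => K) z := by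
    refine lintegral_le_of_lines (hm1.indicator measurableSet_ball)
      (measurable_const.indicator measurableSet_ball) h0 fun y => ?_
    by_cases hex : ∃ s : ℝ, y + s • e0 ∈ ball (0 : E) 1
    · obtain ⟨s1, hs1⟩ := hex
      have hs1' : ‖y + s1 • e0‖ < 1 := by simpa using hs1
      set c := inner ℝ e0 y with hc
      have hin : ∀ s : ℝ, inner ℝ e0 (y + s • e0) = s + c := by
        intro s
        rw [inner_add_right, inner_smul_right, real_inner_self_eq_norm_sq, h0]
        ring
      calc ∫⁻ s : ℝ, indicator (ball (0 : E) 1)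
            (fun z => ENNReal.ofReal (|inner ℝ e0 z| ^ p)) (y + s • e0)
          ≤ ∫⁻ s : ℝ, indicator (Ioo (-1 : ℝ) 1) (fun t => ENNReal.ofReal (|t| ^ p)) (s + c) := by
            refine lintegral_mono fun s => ?_
            by_cases hs : y + s • e0 ∈ ball (0 : E) 1
            · have h3 : |s + c| < 1 := by
                rw [← hin s]
                calc |inner ℝ e0 (y + s • e0)| ≤ ‖e0‖ * ‖y + s • e0‖ := abs_real_inner_le_norm _ _
                  _ < 1 := by rw [h0, one_mul]; simpa using hs
              rw [indicator_of_mem hs, indicator_of_mem (show s + c ∈ Ioo (-1 : ℝ) 1 from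
                abs_lt.1 h3), hin]
            · rw [indicator_of_notMem hs]
              exact zero_le
        _ = K := by
            rw [lintegral_add_right_eq_self (fun s => indicator (Ioo (-1 : ℝ) 1)
              (fun t => ENNReal.ofReal (|t| ^ p)) s) c, lintegral_indicator measurableSet_Ioo]
        _ ≤ ∫⁻ s in Ioo (s1 - 1) (s1 + 1), K := by
            rw [setLIntegral_const, Real.volume_Ioo]
            have : ENNReal.ofReal (s1 + 1 - (s1 - 1)) = 2 := by
              rw [show s1 + 1 - (s1 - 1) = 2 by ring]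
              simp
            rw [this, mul_two]
            exact le_self_add
        _ = ∫⁻ s : ℝ, indicator (Ioo (s1 - 1) (s1 + 1)) (fun _ => K) s :=
            (lintegral_indicator measurableSet_Ioo _).symm
        _ ≤ ∫⁻ s : ℝ, indicator (ball (0 : E) 2) (fun _ => K) (y + s • e0) := by
            refine lintegral_mono fun s => ?_
            by_cases hs : s ∈ Ioo (s1 - 1) (s1 + 1)
            · have h3 : y + s • e0 ∈ ball (0 : E) 2 := by
                rw [mem_ball, dist_zero_right]
                have h4 : y + s • e0 = (y + s1 • e0) + (s - s1) • e0 := by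
                  rw [sub_smul]
                  abel
                have h5 : ‖(s - s1) • e0‖ < 1 := by
                  rw [norm_smul, h0, mul_one, Real.norm_eq_abs, abs_lt]
                  constructor <;> linarith [hs.1, hs.2]
                rw [h4]
                calc _ ≤ _ := norm_add_le _ _
                  _ < 2 := by linarith
              rw [indicator_of_mem hs, indicator_of_mem h3]
            · rw [indicator_of_notMem hs]
              exact zero_le
    · have h3 : ∀ s : ℝ, indicator (ball (0 : E) 1)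
          (fun z => ENNReal.ofReal (|inner ℝ e0 z| ^ p)) (y + s • e0) = 0 := fun s =>
        indicator_of_notMem (fun hs => hex ⟨s, hs⟩) _
      simp [h3]
  refine (h1.trans h2).trans_lt ?_
  rw [lintegral_indicator measurableSet_ball, setLIntegral_const]
  exact ENNReal.mul_lt_top hK1 measure_ball_lt_top

/-- the lower bound of the moments -/
lemma Mp_ge {e0 e1 : E} (h0 : ‖e0‖ = 1) (h1 : ‖e1‖ = 1) (h01 : inner ℝ e0 e1 = 0) {p : ℝ}
    (hp : -1 < p) (hp0 : p < 0) :
    ENNReal.ofReal (3 / 16 / (p + 1)) * volume (ball ((1 / 2 : ℝ) • e1) (1 / 8)) ≤ Mp e0 p := by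
  have hpp : 0 < p + 1 := by linarith
  have hm1 : Measurable fun z : E => ENNReal.ofReal (|inner ℝ e0 (un z)| ^ p) :=
    ((measurable_sig e0).norm.pow_const p).ennreal_ofReal
  have h2 : ∫⁻ z, indicator (ball ((1 / 2 : ℝ) • e1) (1 / 8))
      (fun _ => ENNReal.ofReal (3 / 16 / (p + 1))) z ≤
      ∫⁻ z, indicator S0 (fun z => ENNReal.ofReal (|inner ℝ e0 (un z)| ^ p)) z := by
    refine lintegral_le_of_lines (measurable_const.indicator measurableSet_ball)
      (hm1.indicator measurableSet_S0) h0 fun y => ?_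
    by_cases hex : ∃ s : ℝ, y + s • e0 ∈ ball ((1 / 2 : ℝ) • e1) (1 / 8)
    · obtain ⟨s1, hs1⟩ := hex
      rw [mem_ball, dist_eq_norm] at hs1
      set z1 := y + s1 • e0 with hz1
      set t1 := inner ℝ e0 z1 with ht1
      have ht1' : |t1| < 1 / 8 := by
        have : t1 = inner ℝ e0 (z1 - (1 / 2 : ℝ) • e1) := by
          rw [inner_sub_right, inner_smul_right, h01, mul_zero, sub_zero]
        rw [this]
        calc _ ≤ ‖e0‖ * ‖z1 - (1 / 2 : ℝ) • e1‖ := abs_real_inner_le_norm _ _
          _ < 1 / 8 := by rw [h0, one_mul]; exact hs1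
      have hz1n : ‖z1‖ < 5 / 8 := by
        have : z1 = (z1 - (1 / 2 : ℝ) • e1) + (1 / 2 : ℝ) • e1 := by abel
        rw [this]
        calc _ ≤ _ := norm_add_le _ _
          _ < 1 / 8 + 1 / 2 := by
            rw [norm_smul, h1]
            norm_num
            linarith
          _ = 5 / 8 := by norm_num
      have hz11 : 3 / 8 ≤ inner ℝ e1 z1 := by
        have h3 : inner ℝ e1 z1 = inner ℝ e1 (z1 - (1 / 2 : ℝ) • e1) + 1 / 2 := by
          rw [inner_sub_right, inner_smul_right, real_inner_self_eq_norm_sq, h1]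
          ring
        have h4 : |inner ℝ e1 (z1 - (1 / 2 : ℝ) • e1)| < 1 / 8 := by
          calc _ ≤ ‖e1‖ * ‖z1 - (1 / 2 : ℝ) • e1‖ := abs_real_inner_le_norm _ _
            _ < 1 / 8 := by rw [h1, one_mul]; exact hs1
        rw [h3]
        linarith [(abs_lt.1 h4).1]
      have hshift : ∀ s : ℝ, y + s • e0 = z1 + (s - s1) • e0 := by
        intro s
        rw [hz1, sub_smul]
        abel
      -- the left hand side
      have hL : ∫⁻ s : ℝ, indicator (ball ((1 / 2 : ℝ) • e1) (1 / 8))
          (fun _ => ENNReal.ofReal (3 / 16 / (p + 1))) (y + s • e0) ≤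
          ENNReal.ofReal (3 / 32 / (p + 1)) := by
        calc _ ≤ ∫⁻ s : ℝ, indicator (Ioo (s1 - 1 / 4) (s1 + 1 / 4))
                (fun _ => ENNReal.ofReal (3 / 16 / (p + 1))) s := by
              refine lintegral_mono fun s => ?_
              by_cases hs : y + s • e0 ∈ ball ((1 / 2 : ℝ) • e1) (1 / 8)
              · have h3 : s ∈ Ioo (s1 - 1 / 4) (s1 + 1 / 4) := by
                  rw [mem_ball, dist_eq_norm] at hs
                  have h4 : (s - s1) • e0 = (y + s • e0 - (1 / 2 : ℝ) • e1) -
                      (z1 - (1 / 2 : ℝ) • e1) := by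
                    rw [hshift s]
                    abel
                  have h5 : |s - s1| < 1 / 4 := by
                    have h6 : ‖(s - s1) • e0‖ = |s - s1| := by
                      rw [norm_smul, h0, mul_one, Real.norm_eq_abs]
                    rw [← h6, h4]
                    calc _ ≤ _ := norm_sub_le _ _
                      _ < 1 / 4 := by linarith
                  rw [abs_lt] at h5
                  constructor <;> linarith [h5.1, h5.2]
                rw [indicator_of_mem hs, indicator_of_mem h3]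
              · rw [indicator_of_notMem hs]
                exact zero_le
          _ = ENNReal.ofReal (3 / 32 / (p + 1)) := by
              rw [lintegral_indicator measurableSet_Ioo, setLIntegral_const, Real.volume_Ioo,
                ← ENNReal.ofReal_mul (by positivity)]
              congr 1
              ring
      refine hL.trans ?_
      -- the right hand side
      have hR : ∀ s ∈ Ioo (s1 - t1) (s1 - t1 + 1 / 4),
          ENNReal.ofReal (3 / 8) * ENNReal.ofReal ((s - (s1 - t1)) ^ p) ≤
            indicator S0 (fun z => ENNReal.ofReal (|inner ℝ e0 (un z)| ^ p)) (y + s • e0) := by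
        intro s hs
        have ht0 : 0 < s - (s1 - t1) := by linarith [hs.1]
        have hin : inner ℝ e0 (y + s • e0) = s - (s1 - t1) := by
          rw [hshift s, inner_add_right, inner_smul_right, real_inner_self_eq_norm_sq, h0, ← ht1]
          ring
        have hn1 : ‖y + s • e0‖ < 1 := by
          rw [hshift s]
          have h3 : ‖(s - s1) • e0‖ < 3 / 8 := by
            rw [norm_smul, h0, mul_one, Real.norm_eq_abs, abs_lt]
            have := abs_lt.1 ht1'
            constructor <;> linarith [hs.1, hs.2, this.1, this.2]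
          calc _ ≤ _ := norm_add_le _ _
            _ < 1 := by linarith
        have hn2 : 3 / 8 ≤ ‖y + s • e0‖ := by
          have h3 : inner ℝ e1 (y + s • e0) = inner ℝ e1 z1 := by
            rw [hshift s, inner_add_right, inner_smul_right, real_inner_comm e0 e1, h01]
            ring
          calc 3 / 8 ≤ inner ℝ e1 (y + s • e0) := by rw [h3]; exact hz11
            _ ≤ ‖e1‖ * ‖y + s • e0‖ := real_inner_le_norm _ _
            _ = ‖y + s • e0‖ := by rw [h1, one_mul]
        have hmem : y + s • e0 ∈ (S0 : Set E) := by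
          refine ⟨by simpa using hn1, fun h => ?_⟩
          rw [mem_singleton_iff] at h
          rw [h, norm_zero] at hn2
          norm_num at hn2
        rw [indicator_of_mem hmem, ← ENNReal.ofReal_mul (by norm_num)]
        refine ENNReal.ofReal_le_ofReal ?_
        rw [sig_eq, hin, abs_of_pos ht0]
        have hnp : 0 < ‖y + s • e0‖ := by linarith
        have h4 : (s - (s1 - t1)) / ‖y + s • e0‖ ≤ 8 / 3 * (s - (s1 - t1)) := by
          rw [div_le_iff₀ hnp]
          nlinarith
        calc 3 / 8 * (s - (s1 - t1)) ^ p ≤ (8 / 3 : ℝ) ^ p * (s - (s1 - t1)) ^ p := by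
              refine mul_le_mul_of_nonneg_right ?_ (Real.rpow_nonneg ht0.le p)
              have h5 : (8 / 3 : ℝ) ^ (-1 : ℝ) ≤ (8 / 3 : ℝ) ^ p :=
                Real.rpow_le_rpow_of_exponent_le (by norm_num) hp.le
              rw [Real.rpow_neg_one] at h5
              norm_num at h5 ⊢
              exact h5
          _ = (8 / 3 * (s - (s1 - t1))) ^ p := (Real.mul_rpow (by norm_num) ht0.le).symm
          _ ≤ _ := Real.rpow_le_rpow_of_nonpos (by positivity) h4 hp0.le
      calc ENNReal.ofReal (3 / 32 / (p + 1))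
          ≤ ENNReal.ofReal (3 / 8) * ENNReal.ofReal ((1 / 4 : ℝ) ^ (p + 1) / (p + 1)) := by
            rw [← ENNReal.ofReal_mul (by norm_num)]
            refine ENNReal.ofReal_le_ofReal ?_
            have h3 : (1 / 4 : ℝ) ^ (1 : ℝ) ≤ (1 / 4 : ℝ) ^ (p + 1) :=
              Real.rpow_le_rpow_of_exponent_ge (by norm_num) (by norm_num) (by linarith)
            rw [Real.rpow_one] at h3
            rw [← mul_div_assoc]
            refine div_le_div_of_nonneg_right ?_ hpp.le
            linarith
        _ = ENNReal.ofReal (3 / 8) * ∫⁻ t in Ioo (0 : ℝ) (1 / 4), ENNReal.ofReal (t ^ p) := by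
            rw [int_pos hp (by norm_num)]
        _ = ENNReal.ofReal (3 / 8) * ∫⁻ s in Ioo (s1 - t1) (s1 - t1 + 1 / 4),
              ENNReal.ofReal ((s - (s1 - t1)) ^ p) := by
            congr 1
            rw [← lintegral_indicator measurableSet_Ioo, ← lintegral_indicator measurableSet_Ioo,
              ← lintegral_sub_right_eq_self _ (s1 - t1)]
            refine lintegral_congr fun s => ?_
            by_cases hs : s ∈ Ioo (s1 - t1) (s1 - t1 + 1 / 4)
            · rw [indicator_of_mem hs, indicator_of_mem (show s - (s1 - t1) ∈ Ioo (0 : ℝ) (1 / 4)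
                from ⟨by linarith [hs.1], by linarith [hs.2]⟩)]
            · rw [indicator_of_notMem hs, indicator_of_notMem]
              exact fun h => hs ⟨by linarith [h.1], by linarith [h.2]⟩
        _ = ∫⁻ s in Ioo (s1 - t1) (s1 - t1 + 1 / 4),
              ENNReal.ofReal (3 / 8) * ENNReal.ofReal ((s - (s1 - t1)) ^ p) :=
            (lintegral_const_mul' _ _ ENNReal.ofReal_ne_top).symm
        _ ≤ ∫⁻ s in Ioo (s1 - t1) (s1 - t1 + 1 / 4),
            indicator S0 (fun z => ENNReal.ofReal (|inner ℝ e0 (un z)| ^ p)) (y + s • e0) :=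
            setLIntegral_mono' measurableSet_Ioo hR
        _ ≤ _ := setLIntegral_le_lintegral _ _
    · have h3 : ∀ s : ℝ, indicator (ball ((1 / 2 : ℝ) • e1) (1 / 8))
          (fun _ => ENNReal.ofReal (3 / 16 / (p + 1))) (y + s • e0) = 0 := fun s =>
        indicator_of_notMem (fun hs => hex ⟨s, hs⟩) _
      simp only [h3, lintegral_zero]
      exact zero_le
  rw [lintegral_indicator measurableSet_ball, setLIntegral_const,
    lintegral_indicator measurableSet_S0] at h2
  exact h2

end Pool.Agent.H85.KW
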