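import Pool.Agent.H85.KW.Lim

/-!
# The inequality for the direction of the Killing field
-/

open Set Metric Filter Topology MeasureTheory
open scoped ContDiff RealInnerProductSpace ENNReal

noncomputable section

set_option maxSynthPendingDepth 3

namespace Pool.Agent.H85.KW

open Pool.Agent.W9h56.BE Pool.Agent.W5h72.BR

variable {E : Type*} [NormedAddCommGroup E] [InnerProductSpace ℝ E] [FiniteDimensional ℝ E]
  [MeasurableSpace E] [BorelSpace E]

variable {g g' : E → E →L[ℝ] E →L[ℝ] ℝ} {e L e' L' : E → E → E} {X : E → E}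

/-- the even moments -/
def Mk (e0 : E) (k : ℕ) : ℝ := ∫ z in ball (0 : E) 1, inner ℝ e0 (un z) ^ k

lemma int_Mk {e0 : E} (h0 : ‖e0‖ = 1) (k : ℕ) :
    IntegrableOn (fun z : E => inner ℝ e0 (un z) ^ k) (ball (0 : E) 1) := by
  refine integrableOn_bdd ((measurable_sig e0).pow_const k) 1 fun y => ?_
  rw [abs_pow]
  exact pow_le_one₀ (abs_nonneg _) (sig_le h0 y)

lemma M2_pos {e0 : E} (h0 : ‖e0‖ = 1) (hn : 0 < Module.finrank ℝ E) : 0 < Mk e0 2 := by
  have h1 := avg hn (stdOrthonormalBasis ℝ E) ((innerSL ℝ e0).smulRight (innerSL ℝ e0))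
  have h2 : ∀ v w : E, (innerSL ℝ e0).smulRight (innerSL ℝ e0) v w = inner ℝ e0 v * inner ℝ e0 w :=
    fun v w => by simp
  simp only [h2] at h1
  have h3 := (stdOrthonormalBasis ℝ E).sum_sq_norm_inner_left e0
  have h4 : ∑ i, inner ℝ e0 (stdOrthonormalBasis ℝ E i) * inner ℝ e0 (stdOrthonormalBasis ℝ E i) =
      1 := by
    rw [h0] at h3
    rw [← one_pow (M := ℝ) 2, ← h3]
    refine Finset.sum_congr rfl fun i _ => ?_
    rw [Real.norm_eq_abs, sq_abs]
    ring
  rw [h4] at h1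
  have h5 : Mk e0 2 = ∫ y in ball (0 : E) 1, inner ℝ e0 (un y) * inner ℝ e0 (un y) := by
    unfold Mk
    simp only [pow_two]
  rw [h5, h1]
  have h6 : (0 : ℝ) < Module.finrank ℝ E := by exact_mod_cast hn
  have h7 : 0 < volume.real (ball (0 : E) 1) := om_pos
  positivity

lemma M4_pos {e0 : E} (h0 : ‖e0‖ = 1) (hn : 0 < Module.finrank ℝ E) : 0 < Mk e0 4 := by
  have h1 := M2_pos h0 hn
  have hV := om_pos (E := E)
  set c := Mk e0 2 / om E with hc
  have hc0 : 0 < c := div_pos h1 hV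
  have h2 : ∫ z in ball (0 : E) 1, (2 * c * inner ℝ e0 (un z) ^ 2 - c ^ 2) ≤ Mk e0 4 := by
    refine integral_mono (((int_Mk h0 2).const_mul _).sub
      (integrableOn_const (C := c ^ 2) measure_ball_lt_top.ne)) (int_Mk h0 4) fun z => ?_
    simp only
    nlinarith [sq_nonneg (inner ℝ e0 (un z) ^ 2 - c)]
  rw [integral_sub ((int_Mk h0 2).const_mul _)
    (integrableOn_const (C := c ^ 2) measure_ball_lt_top.ne), integral_const_mul,
    setIntegral_const] at h2
  change 2 * c * Mk e0 2 - om E * c ^ 2 ≤ Mk e0 4 at h2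
  have h3 : Mk e0 2 = c * om E := by
    rw [hc]
    field_simp
  rw [h3] at h2
  have h4 : 0 < c ^ 2 * om E := by positivity
  nlinarith

/-- the inequality for the quadratic weight -/
theorem step2 (h : Simple g e L) (hg : IsMetric g') (hX : ContDiff ℝ 1 X) (hK : IsKilling g X)
    (hd : ∀ p ∈ sphere (0 : E) 1, ∀ q ∈ sphere (0 : E) 1, gdist g p q ≤ gdist g' p q)
    {e0 : E} (h0 : ‖e0‖ = 1) {a b t : E → ℝ} (hab : Str g g' X a b) (ht : Measurable t)
    (hbt : ∀ x ∈ ball (0 : E) 1, b x * nX g X x ^ 2 = t x) {C : ℝ}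
    (htC : ∀ x ∈ ball (0 : E) 1, |t x| ≤ C) (ht1 : ∀ x ∈ ball (0 : E) 1, 0 ≤ a x + t x)
    (ha1 : ∀ᵐ x ∂(volume.restrict (ball (0 : E) 1)), a x = 1) (hn : 0 < Module.finrank ℝ E) :
    0 ≤ ∫ x in ball (0 : E) 1, dens (g x) * (nX g X x ^ 2 * t x) := by
  have hgm := Simple_isMetric h
  have hXc := hX.continuous
  have hRc := continuous_nX hgm hXc
  have hmR : Measurable (nX g X) := hRc.measurable
  have hR0 : ∀ x, 0 ≤ nX g X x := fun x => nX_nonneg x
  have hM2 := M2_pos h0 hn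
  have hM4 := M4_pos h0 hn
  have hW : Measurable fun s : ℝ => ENNReal.ofReal (s ^ 2) := by fun_prop
  have h1 := base h hg hX hK hd hW h0 hab
  -- the left hand side
  have e1 : ∫⁻ x in ball (0 : E) 1, ENNReal.ofReal (dens (g x)) *
        ∫⁻ z in S0, ENNReal.ofReal ((nX g X x * inner ℝ e0 (un z)) ^ 2) =
      ∫⁻ x in ball (0 : E) 1, ENNReal.ofReal (dens (g x) * (nX g X x ^ 2 * Mk e0 2)) := by
    refine lintegral_congr fun x => ?_
    have k1 : ∀ z : E, (nX g X x * inner ℝ e0 (un z)) ^ 2 =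
        nX g X x ^ 2 * inner ℝ e0 (un z) ^ 2 := fun z => by ring
    simp only [k1]
    rw [lint_S0 hn ((int_Mk h0 2).const_mul _) fun y => by positivity, integral_const_mul,
      ← ENNReal.ofReal_mul (dens_nonneg _)]
    rfl
  have e2 : ∫⁻ x in ball (0 : E) 1, ENNReal.ofReal (dens (g x)) *
        ∫⁻ z in S0, ENNReal.ofReal ((nX g X x * inner ℝ e0 (un z)) ^ 2) *
          ENNReal.ofReal √(a x + b x * (nX g X x * inner ℝ e0 (un z)) ^ 2) ≤
      ∫⁻ x in ball (0 : E) 1, ENNReal.ofReal (dens (g x) *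
        (nX g X x ^ 2 * Mk e0 2 + nX g X x ^ 2 * t x / 2 * Mk e0 4)) := by
    refine lintegral_mono_ae ?_
    filter_upwards [ha1, ae_restrict_mem measurableSet_ball] with x hx1 hxb
    rw [ENNReal.ofReal_mul (dens_nonneg _)]
    refine mul_le_mul_right ?_ _
    have ht2 : -1 ≤ t x := by
      have := ht1 x hxb
      rw [hx1] at this
      linarith
    have k1 : ∀ z : E, ENNReal.ofReal ((nX g X x * inner ℝ e0 (un z)) ^ 2) *
        ENNReal.ofReal √(a x + b x * (nX g X x * inner ℝ e0 (un z)) ^ 2) ≤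
        ENNReal.ofReal (nX g X x ^ 2 * inner ℝ e0 (un z) ^ 2 +
          nX g X x ^ 2 * t x / 2 * inner ℝ e0 (un z) ^ 4) := by
      intro z
      set s := inner ℝ e0 (un z) with hs
      rw [← ENNReal.ofReal_mul (by positivity)]
      refine ENNReal.ofReal_le_ofReal ?_
      have k2 : b x * (nX g X x * s) ^ 2 = t x * s ^ 2 := by
        rw [← hbt x hxb]
        ring
      rw [hx1, k2]
      have hs1 : s ^ 2 ≤ 1 := by
        have := sig_le h0 z
        rw [← sq_abs]
        exact pow_le_one₀ (abs_nonneg _) this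
      have k3 : √(1 + t x * s ^ 2) ≤ 1 + t x * s ^ 2 / 2 := by
        refine Real.sqrt_le_iff.2 ⟨by nlinarith [sq_nonneg s], ?_⟩
        nlinarith [sq_nonneg (t x * s ^ 2)]
      calc (nX g X x * s) ^ 2 * √(1 + t x * s ^ 2)
          ≤ (nX g X x * s) ^ 2 * (1 + t x * s ^ 2 / 2) :=
            mul_le_mul_of_nonneg_left k3 (by positivity)
        _ = _ := by ring
    have hf0 : ∀ y : E, 0 ≤ nX g X x ^ 2 * inner ℝ e0 (un y) ^ 2 +
          nX g X x ^ 2 * t x / 2 * inner ℝ e0 (un y) ^ 4 := by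
      intro y
      have hs1 : inner ℝ e0 (un y) ^ 2 ≤ 1 := by
        have := sig_le h0 y
        rw [← sq_abs]
        exact pow_le_one₀ (abs_nonneg _) this
      have h4 : nX g X x ^ 2 * inner ℝ e0 (un y) ^ 2 +
          nX g X x ^ 2 * t x / 2 * inner ℝ e0 (un y) ^ 4 =
          nX g X x ^ 2 * inner ℝ e0 (un y) ^ 2 * (1 + t x / 2 * inner ℝ e0 (un y) ^ 2) := by ring
      rw [h4]
      refine mul_nonneg (by positivity) ?_
      nlinarith [sq_nonneg (inner ℝ e0 (un y))]
    refine (lintegral_mono k1).trans ?_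
    have i4 : IntegrableOn (fun y : E => nX g X x ^ 2 * inner ℝ e0 (un y) ^ 2 +
          nX g X x ^ 2 * t x / 2 * inner ℝ e0 (un y) ^ 4) (ball (0 : E) 1) :=
      ((int_Mk h0 2).const_mul _).add ((int_Mk h0 4).const_mul _)
    rw [lint_S0 hn i4 hf0,
      integral_add ((int_Mk h0 2).const_mul _) ((int_Mk h0 4).const_mul _), integral_const_mul,
      integral_const_mul]
    rfl
  rw [e1] at h1
  have h2 := h1.trans e2
  have hcR : ContinuousOn (fun x => dens (g x) * nX g X x ^ 2) (closedBall (0 : E) 1) :=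
    ((continuous_dens hgm.cont).mul (hRc.pow 2)).continuousOn
  have i0 : IntegrableOn (fun x => dens (g x) * nX g X x ^ 2) (ball (0 : E) 1) :=
    (intOn hcR).mono_set ball_subset_closedBall
  have i1 : IntegrableOn (fun x => dens (g x) * (nX g X x ^ 2 * Mk e0 2)) (ball (0 : E) 1) := by
    have := i0.mul_const (Mk e0 2)
    simp only [mul_assoc] at this
    exact this
  have i2 : IntegrableOn (fun x => dens (g x) * (nX g X x ^ 2 * t x)) (ball (0 : E) 1) := by
    have h3 := i0.const_mul C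
    refine h3.mono' ((measurable_dens hgm).mul ((hmR.pow_const 2).mul ht)).aestronglyMeasurable ?_
    refine (ae_restrict_iff' measurableSet_ball).2 (Eventually.of_forall fun x hx => ?_)
    have h4 : 0 ≤ dens (g x) * nX g X x ^ 2 := mul_nonneg (dens_nonneg _) (sq_nonneg _)
    rw [← mul_assoc, Real.norm_eq_abs, abs_mul, abs_of_nonneg h4, mul_comm]
    exact mul_le_mul_of_nonneg_right (htC x hx) h4
  have e3 : ∀ x, dens (g x) * (nX g X x ^ 2 * Mk e0 2 + nX g X x ^ 2 * t x / 2 * Mk e0 4) =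
      dens (g x) * (nX g X x ^ 2 * Mk e0 2) +
        Mk e0 4 / 2 * (dens (g x) * (nX g X x ^ 2 * t x)) := fun x => by ring
  simp only [e3] at h2
  by_contra hneg
  push Not at hneg
  have i3 : IntegrableOn (fun x => dens (g x) * (nX g X x ^ 2 * Mk e0 2) +
        Mk e0 4 / 2 * (dens (g x) * (nX g X x ^ 2 * t x))) (ball (0 : E) 1) :=
    i1.add (i2.const_mul (Mk e0 4 / 2))
  have h3 : ∫⁻ x in ball (0 : E) 1, ENNReal.ofReal (dens (g x) * (nX g X x ^ 2 * Mk e0 2)) ≤
      ∫⁻ x in ball (0 : E) 1, ENNReal.ofReal (dens (g x) * (nX g X x ^ 2 * Mk e0 2) +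
        Mk e0 4 / 2 * (dens (g x) * (nX g X x ^ 2 * t x))) := h2
  have hge : ∀ᵐ x ∂(volume.restrict (ball (0 : E) 1)), 0 ≤ dens (g x) * (nX g X x ^ 2 * Mk e0 2) +
      Mk e0 4 / 2 * (dens (g x) * (nX g X x ^ 2 * t x)) := by
    filter_upwards [ha1, ae_restrict_mem measurableSet_ball] with x hx1 hxb
    have ht2 : -1 ≤ t x := by
      have := ht1 x hxb
      rw [hx1] at this
      linarith
    have h5 : Mk e0 4 ≤ Mk e0 2 := by
      refine integral_mono (int_Mk h0 4) (int_Mk h0 2) fun z => ?_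
      simp only
      have hs1 : inner ℝ e0 (un z) ^ 2 ≤ 1 := by
        have := sig_le h0 z
        rw [← sq_abs]
        exact pow_le_one₀ (abs_nonneg _) this
      nlinarith [sq_nonneg (inner ℝ e0 (un z))]
    have h6 : 0 ≤ dens (g x) * nX g X x ^ 2 := mul_nonneg (dens_nonneg _) (sq_nonneg _)
    have h7 : dens (g x) * (nX g X x ^ 2 * Mk e0 2) +
        Mk e0 4 / 2 * (dens (g x) * (nX g X x ^ 2 * t x)) =
        dens (g x) * nX g X x ^ 2 * (Mk e0 2 + Mk e0 4 / 2 * t x) := by ring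
    rw [h7]
    refine mul_nonneg h6 ?_
    nlinarith
  rw [← ofReal_integral_eq_lintegral_ofReal i1 (Eventually.of_forall fun x =>
      mul_nonneg (dens_nonneg _) (mul_nonneg (sq_nonneg _) hM2.le)),
    ← ofReal_integral_eq_lintegral_ofReal i3 hge, ENNReal.ofReal_le_ofReal_iff
      (integral_nonneg_of_ae hge), integral_add i1 (i2.const_mul _), integral_const_mul] at h3
  nlinarith

end Pool.Agent.H85.KW
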