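import Pool.Agent.H85.KW.Kill

/-!
# The weighted comparison
-/

open Set Metric Filter Topology MeasureTheory
open scoped ContDiff RealInnerProductSpace ENNReal

noncomputable section

set_option maxSynthPendingDepth 3

namespace Pool.Agent.H85.KW

open Pool.Agent.W9h56.BE Pool.Agent.W5h72.BR

variable {E : Type*} [NormedAddCommGroup E] [InnerProductSpace ℝ E]

lemma pull_id (g' : E → E →L[ℝ] E →L[ℝ] ℝ) : pull id g' = g' := by
  funext x
  ext v w
  rw [pull_apply]
  simp

lemma isBdryMap_id : IsBdryMap (id : E → E) :=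
  ⟨contDiff_id, fun _ hx => hx, fun _ _ => rfl⟩

variable [FiniteDimensional ℝ E] [MeasurableSpace E] [BorelSpace E]

variable {g g' : E → E →L[ℝ] E →L[ℝ] ℝ} {e L e' L' : E → E → E} {X : E → E}

/-- the first integral at `x` in the direction of the boundary point `proj z` -/
def fi (g : E → E →L[ℝ] E →L[ℝ] ℝ) (L : E → E → E) (X : E → E) (w : E × E) : ℝ :=
  g w.1 (X w.1) (uu g L w.1 (proj w.2))

omit [FiniteDimensional ℝ E] [MeasurableSpace E] [BorelSpace E] in
lemma continuousAt_fi (h : Simple g e L) (hX : ContDiff ℝ 1 X) {w : E × E} (hw : w ∈ UU) :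
    ContinuousAt (fi g L X) w := by
  have h1 : ContinuousAt (fun w : E × E => g w.1) w :=
    h.smooth.continuous.continuousAt.comp continuousAt_fst
  have h2 : ContinuousAt (fun w : E × E => X w.1) w :=
    hX.continuous.continuousAt.comp continuousAt_fst
  exact (h1.clm_apply h2).clm_apply (continuousAt_uu h hw)

lemma aem {F : E × E → ℝ≥0∞} (hF : AEMeasurable F
    (((volume : Measure E).prod volume).restrict (ball (0 : E) 1 ×ˢ S0))) :
    ∫⁻ x in ball (0 : E) 1, ∫⁻ z in S0, F (x, z) = ∫⁻ z in S0, ∫⁻ x in ball (0 : E) 1, F (x, z) := by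
  refine lintegral_lintegral_swap (f := fun x z => F (x, z)) ?_
  rw [← Measure.prod_restrict] at hF
  exact hF

lemma aem_of {f : E × E → ℝ} (hf : ∀ w ∈ (UU : Set (E × E)), ContinuousAt f w) :
    AEMeasurable f (((volume : Measure E).prod volume).restrict (ball (0 : E) 1 ×ˢ S0)) := by
  have h1 : ContinuousOn f (ball (0 : E) 1 ×ˢ S0) := fun w hw =>
    (hf w (sub_UU hw)).continuousWithinAt
  exact h1.aemeasurable (measurableSet_ball.prod measurableSet_S0)

/-- the weighted comparison -/
theorem weighted (h : Simple g e L) (hg : IsMetric g') (hX : ContDiff ℝ 1 X) (hK : IsKilling g X)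
    (hd : ∀ p ∈ sphere (0 : E) 1, ∀ q ∈ sphere (0 : E) 1, gdist g p q ≤ gdist g' p q)
    {W : ℝ → ℝ≥0∞} (hW : Measurable W) :
    ∫⁻ x in ball (0 : E) 1, ∫⁻ z in S0, ENNReal.ofReal |(AA g L (x, z)).det| * W (fi g L X (x, z)) ≤
      ∫⁻ x in ball (0 : E) 1, ∫⁻ z in S0, ENNReal.ofReal |(AA g L (x, z)).det| *
        (W (fi g L X (x, z)) * ENNReal.ofReal (FF g g' L id (x, z))) := by
  have a1 : AEMeasurable (fun w : E × E => ENNReal.ofReal |(AA g L w).det|)
      (((volume : Measure E).prod volume).restrict (ball (0 : E) 1 ×ˢ S0)) :=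
    (aem_of (f := fun w => |(AA g L w).det|) fun w hw =>
      (ContinuousLinearMap.continuous_det.continuousAt.comp (continuousAt_AA h hw)).abs).ennreal_ofReal
  have a2 : AEMeasurable (fun w : E × E => W (fi g L X w))
      (((volume : Measure E).prod volume).restrict (ball (0 : E) 1 ×ˢ S0)) :=
    hW.comp_aemeasurable (aem_of fun w hw => continuousAt_fi h hX hw)
  have a3 : AEMeasurable (fun w : E × E => ENNReal.ofReal (FF g g' L id w))
      (((volume : Measure E).prod volume).restrict (ball (0 : E) 1 ×ˢ S0)) :=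
    (aem_of fun w hw => continuousAt_FF h hg isBdryMap_id hw).ennreal_ofReal
  rw [aem (F := fun w => ENNReal.ofReal |(AA g L w).det| * W (fi g L X w)) (a1.mul a2),
    aem (F := fun w => ENNReal.ofReal |(AA g L w).det| *
      (W (fi g L X w) * ENNReal.ofReal (FF g g' L id w))) (a1.mul (a2.mul a3))]
  refine setLIntegral_mono' measurableSet_S0 fun z hz => ?_
  have hz0 : z ≠ 0 := fun h0 => hz.2 h0
  have m1 : Measurable fun x : ball (0 : E) 1 => W (fi g L X (x, z)) := by
    refine hW.comp ?_
    have h1 : ContinuousOn (fun x => fi g L X (x, z)) (ball (0 : E) 1) := fun x hx =>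
      (ContinuousAt.comp (f := fun x => (x, z)) (g := fi g L X)
        (continuousAt_fi h hX ⟨by simpa using hx, hz0⟩) (by fun_prop)).continuousWithinAt
    exact (continuousOn_iff_continuous_domRestrict.1 h1).measurable
  have m2 : Measurable fun x : ball (0 : E) 1 => ENNReal.ofReal (FF g g' L id (x, z)) := by
    refine Measurable.ennreal_ofReal ?_
    have h1 : ContinuousOn (fun x => FF g g' L id (x, z)) (ball (0 : E) 1) := fun x hx =>
      (ContinuousAt.comp (f := fun x => (x, z)) (g := FF g g' L id)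
        (continuousAt_FF h hg isBdryMap_id ⟨by simpa using hx, hz0⟩)
        (by fun_prop)).continuousWithinAt
    exact (continuousOn_iff_continuous_domRestrict.1 h1).measurable
  refine fix_z2 h hz0 (F1 := fun x => W (fi g L X (x, z)))
    (F2 := fun x => W (fi g L X (x, z)) * ENNReal.ofReal (FF g g' L id (x, z))) m1 (m1.mul m2)
    fun q hq hpq => ?_
  have hp := proj_mem hz0
  set c := W (-((rho g L (proj z) q)⁻¹ * g (proj z) (X (proj z)) (L (proj z) q))) with hc
  have k1 : ∀ s ∈ Ioo (0 : ℝ) (rho g L (proj z) q),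
      W (fi g L X (e (proj z) ((s / rho g L (proj z) q) • L (proj z) q), z)) = c := by
    intro s hs
    rw [hc, fi]
    simp only
    rw [integral_seg h hX hK hp hq hpq hs]
  have e1 : ∫⁻ s in Ioo (0 : ℝ) (rho g L (proj z) q),
      W (fi g L X (e (proj z) ((s / rho g L (proj z) q) • L (proj z) q), z)) =
        c * ENNReal.ofReal (rho g L (proj z) q) := by
    rw [setLIntegral_congr_fun measurableSet_Ioo k1, setLIntegral_const, Real.volume_Ioo, sub_zero]
  have e2 : ∫⁻ s in Ioo (0 : ℝ) (rho g L (proj z) q),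
      W (fi g L X (e (proj z) ((s / rho g L (proj z) q) • L (proj z) q), z)) *
        ENNReal.ofReal (FF g g' L id
          (e (proj z) ((s / rho g L (proj z) q) • L (proj z) q), z)) =
      ∫⁻ s in Ioo (0 : ℝ) (rho g L (proj z) q), c * ENNReal.ofReal (FF g g' L id
          (e (proj z) ((s / rho g L (proj z) q) • L (proj z) q), z)) :=
    setLIntegral_congr_fun measurableSet_Ioo fun s hs => by simp only [k1 s hs]
  rw [e1, e2]
  have k2 := len_le h hg isBdryMap_id hd hp hq hpq
  calc c * ENNReal.ofReal (rho g L (proj z) q) ≤ c * ∫⁻ s in Ioo (0 : ℝ) (rho g L (proj z) q),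
        ENNReal.ofReal (FF g g' L id
          (e (proj z) ((s / rho g L (proj z) q) • L (proj z) q), z)) := by
        gcongr
        exact k2
    _ ≤ _ := lintegral_const_mul_le _ _

end Pool.Agent.H85.KW
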